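import Pool.Agent.H283.HT.Stm

set_option autoImplicit false

/-! HT-MIR: the mirror image in the horizontal plane. -/

namespace Pool.Agent.H967.HTX

open Pool.Agent.H283.HT

lemma Mz_Mz (x : P3) : Mz (Mz x) = x := by
  unfold Mz
  simp

lemma Mz_cont : Continuous Mz := by
  unfold Mz
  fun_prop

/-- the reflection as a homeomorphism -/
def hM : P3 ≃ₜ P3 where
  toFun := Mz
  invFun := Mz
  left_inv := Mz_Mz
  right_inv := Mz_Mz
  continuous_toFun := Mz_cont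
  continuous_invFun := Mz_cont

lemma int_image (K : Set P3) : interior (Mz '' K) = Mz '' interior K :=
  (hM.image_interior K).symm

lemma Mz_mem (K : Set P3) (x : P3) : Mz x ∈ Mz '' K ↔ x ∈ K := by
  constructor
  · rintro ⟨y, hy, h⟩
    have := congrArg Mz h
    rw [Mz_Mz, Mz_Mz] at this
    rwa [← this]
  · exact fun h => ⟨x, h, rfl⟩

lemma Mz_lin (x d : P3) (t : ℝ) : Mz x + t • Mz d = Mz (x + t • d) := by
  unfold Mz
  ext <;> simp
  ring

lemma R_Mz (x : P3) : R (Mz x) = Mz (R x) := rfl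

theorem MIR_done : S_MIR := by
  intro K hK
  have hC : ∀ x d : P3, Mz d ∈ C (Mz '' K) (Mz x) → d ∈ C K x := by
    rintro x d ⟨t, ht, h⟩
    refine ⟨t, ht, ?_⟩
    rw [int_image, Mz_lin, Mz_mem] at h
    exact h
  refine ⟨⟨?_, hK.comp.image Mz_cont, ?_, ?_, ?_, ?_, ?_, ?_⟩, ?_, hC, ?_, Mz_mem K⟩
  · rintro _ ⟨x, hx, rfl⟩ _ ⟨y, hy, rfl⟩ s t hs ht hst
    refine ⟨s • x + t • y, hK.conv hx hy hs ht hst, ?_⟩
    unfold Mz
    ext <;> simp
    ring
  · rw [int_image]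
    exact hK.inner.image _
  · rintro _ ⟨x, hx, rfl⟩
    rw [R_Mz]
    exact ⟨R x, hK.sym x hx, rfl⟩
  · exact ⟨_, hK.bot, by simp [Mz]⟩
  · exact ⟨_, hK.top, by simp [Mz]⟩
  · rintro _ ⟨x, hx, rfl⟩
    have := hK.ge x hx
    show -x.2 ≤ 1
    linarith
  · rintro _ ⟨x, hx, rfl⟩
    have := hK.le x hx
    show -1 ≤ -x.2
    linarith
  · unfold Sh
    rw [Set.image_image]
    rfl
  · rintro ⟨D, hD, h⟩
    classical
    refine ⟨D.image Mz, Finset.card_image_le.trans hD, fun x hx => ?_⟩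
    obtain ⟨d, hd, h2⟩ := h (Mz x) ⟨x, hx, rfl⟩
    refine ⟨Mz d, Finset.mem_image_of_mem _ hd, hC x (Mz d) ?_⟩
    rwa [Mz_Mz]

end Pool.Agent.H967.HTX

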