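import Pool.Agent.H770.GS.TE
import Pool.Agent.H37.GSmono

/-!
# Project TE: the shape of the weight `Mc r c a / W a` for `√2 ≤ c ≤ √3`, `1 ≤ r ≤ 3/2`
-/

set_option autoImplicit false

open MeasureTheory Set intervalIntegral

namespace Pool.Agent.H967.TEshapeG

open Pool.Agent.H770.GS Pool.Agent.H37.GSmono

/-- the bracket multiplying `e x` -/
noncomputable def Bb (r s x : ℝ) : ℝ :=
  s * (2 - r ^ 2) + 1 + r * x * (5 / 2 * s - 1) + x ^ 2 * (3 / 2 - 7 / 4 * s)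

theorem B_zero {r s : ℝ} (hr : r ^ 2 ≤ 9 / 4) (hs0 : 0 ≤ s) (hs : s ≤ 3) : 0 ≤ Bb r s 0 := by
  unfold Bb
  nlinarith

/-- the value at `x = c r` -/
theorem B_mid {r c : ℝ} (hr : r ^ 2 ≤ 9 / 4) (hc0 : 1 ≤ c) (hc1 : 2 ≤ c ^ 2) (hc2 : c ^ 2 ≤ 3) :
    0 ≤ Bb r (c ^ 2) (c * r) := by
  have e : Bb r (c ^ 2) (c * r) = 2 * c ^ 2 + 1 +
      r ^ 2 * (c ^ 2 / 2 + 5 / 2 * c ^ 3 - c - 7 / 4 * c ^ 4) := by
    unfold Bb
    ring
  rw [e]
  have l1 : (1.414 : ℝ) ≤ c := by nlinarith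
  have l2 : c ≤ 1.7321 := by nlinarith
  have l3 : (c ^ 2 + 24492 / 10000) * (10000 / 31461) ≤ c := by
    nlinarith
  -- the case `r ^ 2 = 9 / 4`
  have k1 : 0 ≤ 1 + 25 / 8 * c ^ 2 - 63 / 16 * (c ^ 2) ^ 2 + c * (45 / 8 * c ^ 2 - 9 / 4) := by
    have h1 : (c ^ 2 + 24492 / 10000) * (10000 / 31461) * (45 / 8 * c ^ 2 - 9 / 4) ≤
        c * (45 / 8 * c ^ 2 - 9 / 4) := mul_le_mul_of_nonneg_right l3 (by linarith)
    have h2 : ∀ s : ℝ, 2 ≤ s → s ≤ 3 → 0 ≤ 1 + 25 / 8 * s - 63 / 16 * s ^ 2 +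
        (s + 24492 / 10000) * (10000 / 31461) * (45 / 8 * s - 9 / 4) := by
      intro s hs1 hs2
      have : 0 ≤ (s - 2) * (3 - s) := mul_nonneg (by linarith) (by linarith)
      nlinarith
    have h3 := h2 (c ^ 2) hc1 hc2
    linarith
  rcases le_or_gt 0 (c ^ 2 / 2 + 5 / 2 * c ^ 3 - c - 7 / 4 * c ^ 4) with h | h
  · have := mul_nonneg (sq_nonneg r) h
    nlinarith
  · have h3 : 9 / 4 * (c ^ 2 / 2 + 5 / 2 * c ^ 3 - c - 7 / 4 * c ^ 4) ≤
        r ^ 2 * (c ^ 2 / 2 + 5 / 2 * c ^ 3 - c - 7 / 4 * c ^ 4) :=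
      mul_le_mul_of_nonpos_right hr h.le
    nlinarith

theorem B_left {r c x : ℝ} (hr0 : 0 < r) (hr : r ^ 2 ≤ 9 / 4) (hc0 : 1 ≤ c) (hc1 : 2 ≤ c ^ 2)
    (hc2 : c ^ 2 ≤ 3) (h0 : 0 ≤ x) (hx : x ≤ c * r) : 0 ≤ Bb r (c ^ 2) x := by
  have hm : 0 < c * r := mul_pos (by linarith) hr0
  have e : c * r * Bb r (c ^ 2) x = (c * r - x) * Bb r (c ^ 2) 0 + x * Bb r (c ^ 2) (c * r) +
      (7 / 4 * c ^ 2 - 3 / 2) * (x * (c * r - x)) * (c * r) := by
    unfold Bb
    ring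
  have h1 := B_zero hr (sq_nonneg c) hc2
  have h2 := B_mid hr hc0 hc1 hc2
  have h3 : 0 ≤ c * r * Bb r (c ^ 2) x := by
    rw [e]
    have a1 := mul_nonneg (sub_nonneg.2 hx) h1
    have a2 := mul_nonneg h0 h2
    have a3 : 0 ≤ (7 / 4 * c ^ 2 - 3 / 2) * (x * (c * r - x)) * (c * r) :=
      mul_nonneg (mul_nonneg (by linarith) (mul_nonneg h0 (sub_nonneg.2 hx))) hm.le
    linarith
  exact nonneg_of_mul_nonneg_right h3 hm

theorem B_right {r c x : ℝ} (hr0 : 0 < r) (hr : r ^ 2 ≤ 9 / 4) (hc0 : 1 ≤ c) (hc1 : 2 ≤ c ^ 2)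
    (hc2 : c ^ 2 ≤ 3) (h0 : c * r ≤ x) (hx : x ≤ 2 * r) :
    - max 0 (c ^ 2 * (3 * r ^ 2 - 2) - 1 - 4 * r ^ 2) ≤ Bb r (c ^ 2) x := by
  set K := max 0 (c ^ 2 * (3 * r ^ 2 - 2) - 1 - 4 * r ^ 2) with hK
  have hc2' : c < 2 := by nlinarith
  have hm : 0 < (2 - c) * r := mul_pos (by linarith) hr0
  have e : (2 - c) * r * Bb r (c ^ 2) x = (2 * r - x) * Bb r (c ^ 2) (c * r) +
      (x - c * r) * Bb r (c ^ 2) (2 * r) +
      (7 / 4 * c ^ 2 - 3 / 2) * ((x - c * r) * (2 * r - x)) * ((2 - c) * r) := by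
    unfold Bb
    ring
  have h2 := B_mid hr hc0 hc1 hc2
  have e2 : Bb r (c ^ 2) (2 * r) = -(c ^ 2 * (3 * r ^ 2 - 2) - 1 - 4 * r ^ 2) := by
    unfold Bb
    ring
  have hK1 : c ^ 2 * (3 * r ^ 2 - 2) - 1 - 4 * r ^ 2 ≤ K := le_max_right _ _
  have hK0 : 0 ≤ K := le_max_left _ _
  have h3 : 0 ≤ (2 - c) * r * (Bb r (c ^ 2) x + K) := by
    rw [mul_add, e, e2]
    have a1 := mul_nonneg (sub_nonneg.2 hx) h2
    have a2 : -((x - c * r) * K) ≤
        (x - c * r) * -(c ^ 2 * (3 * r ^ 2 - 2) - 1 - 4 * r ^ 2) := by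
      have := mul_le_mul_of_nonneg_left hK1 (sub_nonneg.2 h0)
      linarith
    have a3 : 0 ≤ (7 / 4 * c ^ 2 - 3 / 2) * ((x - c * r) * (2 * r - x)) * ((2 - c) * r) :=
      mul_nonneg (mul_nonneg (by linarith) (mul_nonneg (sub_nonneg.2 h0) (sub_nonneg.2 hx))) hm.le
    have a4 : (x - c * r) * K ≤ (2 - c) * r * K :=
      mul_le_mul_of_nonneg_right (by linarith) hK0
    linarith
  have h4 := nonneg_of_mul_nonneg_right h3 hm
  linarith

theorem A_nonneg {s X : ℝ} (hs1 : 2 ≤ s) (hs2 : s ≤ 3) (h0 : 0 ≤ X) (hX : X ≤ 9) :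
    0 ≤ 3 * s / 4 + X * (2 - s) / 8 := by
  have : 0 ≤ (9 - X) * (s - 2) := mul_nonneg (by linarith) (by linarith)
  nlinarith

theorem ee_le {r c a : ℝ} (hc1 : 2 ≤ c ^ 2) :
    ee r (c * a) ≤ Real.exp (-(r ^ 2 * (c ^ 2 - 2) / (2 * (c ^ 2 - 1)))) * W a := by
  unfold ee W
  rw [← Real.exp_add, ← Real.exp_add, Real.exp_le_exp]
  have hp : (0:ℝ) < 2 * (c ^ 2 - 1) := by linarith
  have h1 : r ^ 2 * (c ^ 2 - 2) / (2 * (c ^ 2 - 1)) ≤
      r ^ 2 - r * (c * a) + (c ^ 2 - 1) * a ^ 2 / 2 := by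
    rw [div_le_iff₀ hp]
    have : 0 ≤ (c * r - (c ^ 2 - 1) * a) ^ 2 := sq_nonneg _
    nlinarith
  have h2 : -(c * a) ^ 2 / 4 + -(r - c * a / 2) ^ 2 =
      -(r ^ 2 - r * (c * a) + (c ^ 2 - 1) * a ^ 2 / 2) + -a ^ 2 / 2 := by ring
  rw [h2]
  linarith

/-- the derivative of the weight -/
noncomputable def Gd (r c a : ℝ) : ℝ := (c * M1d r (c * a) + a * M1 r (c * a)) / W a

theorem G_deriv (r c a : ℝ) : HasDerivAt (fun a => Mc r c a / W a) (Gd r c a) a := by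
  have h1 : HasDerivAt (fun a : ℝ => c * a) c a := by
    simpa using (hasDerivAt_id a).const_mul c
  have h2 : HasDerivAt (fun a => M1 r (c * a)) (M1d r (c * a) * c) a :=
    (M1_deriv r (c * a)).comp a h1
  have h3 : (fun a => Mc r c a / W a) = fun a => M1 r (c * a) / W a := by
    funext a
    rw [Mc_eq]
  rw [h3]
  refine (h2.div (W_deriv a) (W_pos a).ne').congr_deriv ?_
  have hW := (W_pos a).ne'
  unfold Gd
  field_simp
  ring

theorem key (r c a : ℝ) : c * (c * M1d r (c * a) + a * M1 r (c * a)) =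
    fL r (c * a) * ((c * a) ^ 2 * (3 * c ^ 2 / 4 + (c * a) ^ 2 * (2 - c ^ 2) / 8)) +
      ee r (c * a) * ((c * a) * Bb r (c ^ 2) (c * a)) := by
  unfold M1d M1 Bb
  ring

theorem shapeG : S_shapeG := by
  intro r c hr1 hr2 hc1 hs1 hs2
  have hr0 : 0 < r := by linarith
  have hc : 0 < c := by linarith
  have hr3 : r ^ 2 ≤ 9 / 4 := by
    have := pow_le_pow_left₀ hr0.le hr2 2
    norm_num at this ⊢
    exact this
  have hc2 : c ≤ 2 := by nlinarith
  have hrA : r ≤ 2 * r / c := by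
    rw [le_div_iff₀ hc]
    nlinarith
  have hdom : ∀ a, 0 ≤ a → a ≤ 2 * r / c → 0 ≤ c * a ∧ c * a ≤ 2 * r := by
    intro a h0 h1
    refine ⟨by positivity, ?_⟩
    rw [le_div_iff₀ hc] at h1
    linarith
  set K := max 0 (c ^ 2 * (3 * r ^ 2 - 2) - 1 - 4 * r ^ 2) with hK
  set E := Real.exp (-(r ^ 2 * (c ^ 2 - 2) / (2 * (c ^ 2 - 1)))) with hE
  have hK0 : 0 ≤ K := le_max_left _ _
  have hE0 : 0 < E := Real.exp_pos _
  have hL : LG r c = 2 * r / c * E * K := rfl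
  have hL0 : 0 ≤ LG r c := by
    rw [hL]
    positivity
  -- the first bracket
  have hfirst : ∀ a, 0 ≤ a → a ≤ 2 * r / c → 0 ≤ fL r (c * a) * ((c * a) ^ 2 *
      (3 * c ^ 2 / 4 + (c * a) ^ 2 * (2 - c ^ 2) / 8)) := by
    intro a h0 h1
    obtain ⟨hx0, hx1⟩ := hdom a h0 h1
    have hx2 : (c * a) ^ 2 ≤ 9 := by
      have h7 : (c * a) ^ 2 ≤ 3 ^ 2 := pow_le_pow_left₀ hx0 (by linarith) 2
      linarith
    exact mul_nonneg (fL_nonneg hx1) (mul_nonneg (sq_nonneg _)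
      (A_nonneg hs1 hs2 (sq_nonneg _) hx2))
  have hd1 : ∀ a, 0 ≤ a → a ≤ r → 0 ≤ Gd r c a := by
    intro a h0 h1
    have h2 : c * a ≤ c * r := mul_le_mul_of_nonneg_left h1 hc.le
    have hB := B_left hr0 hr3 hc1 hs1 hs2 (mul_nonneg hc.le h0) h2
    have h3 : 0 ≤ c * (c * M1d r (c * a) + a * M1 r (c * a)) := by
      rw [key]
      exact add_nonneg (hfirst a h0 (h1.trans hrA))
        (mul_nonneg (ee_pos _ _).le (mul_nonneg (mul_nonneg hc.le h0) hB))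
    exact div_nonneg (nonneg_of_mul_nonneg_right h3 hc) (W_pos a).le
  have hd2 : ∀ a, r ≤ a → a ≤ 2 * r / c → 0 ≤ Gd r c a + LG r c := by
    intro a h0 h1
    have ha : 0 ≤ a := hr0.le.trans h0
    have h2 : c * r ≤ c * a := mul_le_mul_of_nonneg_left h0 hc.le
    obtain ⟨hx0, hx1⟩ := hdom a ha h1
    have hB : -K ≤ Bb r (c ^ 2) (c * a) := B_right hr0 hr3 hc1 hs1 hs2 h2 hx1
    have hW := W_pos a
    have h3 : 0 ≤ c * (c * M1d r (c * a) + a * M1 r (c * a) + ee r (c * a) * a * K) := by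
      rw [mul_add, key]
      have h4 : 0 ≤ ee r (c * a) * ((c * a) * (Bb r (c ^ 2) (c * a) + K)) :=
        mul_nonneg (ee_pos _ _).le (mul_nonneg hx0 (by linarith))
      have h5 := hfirst a ha h1
      nlinarith
    have h6 : 0 ≤ c * M1d r (c * a) + a * M1 r (c * a) + ee r (c * a) * a * K :=
      nonneg_of_mul_nonneg_right h3 hc
    have h7 : ee r (c * a) * a * K ≤ LG r c * W a := by
      rw [hL]
      have h8 : ee r (c * a) * a ≤ E * W a * (2 * r / c) :=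
        mul_le_mul (ee_le hs1) h1 ha (by positivity)
      calc ee r (c * a) * a * K ≤ E * W a * (2 * r / c) * K := mul_le_mul_of_nonneg_right h8 hK0
        _ = 2 * r / c * E * K * W a := by ring
    have h9 : Gd r c a + LG r c =
        (c * M1d r (c * a) + a * M1 r (c * a) + LG r c * W a) / W a := by
      unfold Gd
      field_simp
    rw [h9]
    exact div_nonneg (by linarith) hW.le
  constructor
  · have m1 : MonotoneOn (fun a => Mc r c a / W a + LG r c * max 0 (a - r)) (Icc 0 r) := by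
      have m0 : MonotoneOn (fun a => Mc r c a / W a) (Icc 0 r) := by
        refine monotoneOn_of_deriv_nonneg (convex_Icc _ _) ?_ ?_ ?_
        · exact fun x _ => (G_deriv r c x).continuousAt.continuousWithinAt
        · exact fun x _ => (G_deriv r c x).differentiableAt.differentiableWithinAt
        · intro a ha
          rw [interior_Icc] at ha
          rw [(G_deriv r c a).deriv]
          exact hd1 a ha.1.le ha.2.le
      intro x hx y hy hxy
      have h1 := m0 hx hy hxy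
      simp only at h1 ⊢
      rw [max_eq_left (sub_nonpos.2 hx.2), max_eq_left (sub_nonpos.2 hy.2)]
      linarith
    have m2 : MonotoneOn (fun a => Mc r c a / W a + LG r c * max 0 (a - r))
        (Icc r (2 * r / c)) := by
      have hd : ∀ a : ℝ, HasDerivAt (fun a => Mc r c a / W a + LG r c * (a - r))
          (Gd r c a + LG r c) a := by
        intro a
        have h1 : HasDerivAt (fun a : ℝ => LG r c * (a - r)) (LG r c) a := by
          simpa using ((hasDerivAt_id a).sub_const r).const_mul (LG r c)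
        exact (G_deriv r c a).add h1
      have m0 : MonotoneOn (fun a => Mc r c a / W a + LG r c * (a - r)) (Icc r (2 * r / c)) := by
        refine monotoneOn_of_deriv_nonneg (convex_Icc _ _) ?_ ?_ ?_
        · exact fun x _ => (hd x).continuousAt.continuousWithinAt
        · exact fun x _ => (hd x).differentiableAt.differentiableWithinAt
        · intro a ha
          rw [interior_Icc] at ha
          rw [(hd a).deriv]
          exact hd2 a ha.1.le ha.2.le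
      intro x hx y hy hxy
      have h1 := m0 hx hy hxy
      simp only at h1 ⊢
      rw [max_eq_right (sub_nonneg.2 hx.1), max_eq_right (sub_nonneg.2 hy.1)]
      exact h1
    have m3 := m1.union_right m2 (isGreatest_Icc hr0.le) (isLeast_Icc hrA)
    rwa [Icc_union_Icc_eq_Icc hr0.le hrA] at m3
  · intro a ha
    obtain ⟨hx0, hx1⟩ := hdom a ha.1 ha.2
    rw [Mc_eq]
    exact M1_nonneg (by linarith) hx0 hx1

end Pool.Agent.H967.TEshapeG
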