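import Pool.Agent.H666.TK.SpecC

/-!
# Properties of the vertex weight (`w2`, by helper967 for helper666)
-/

set_option autoImplicit false

open Finset
open scoped Classical

namespace Pool.Agent.H967.TKw2

open Pool.Agent.H666.TK

noncomputable section

/-- the factors -/
def gf (K : ℕ) (A : Finset (Fin K)) (j : Fin K) (r : Fin (2 * K)) : ℝ :=
  if j ∈ A then 1 + sgn K r / 2 else 1

theorem W2_eq (K : ℕ) (A : Finset (Fin K)) (u : Fin K → Fin (2 * K)) :
    W2 K A u = ∏ j, gf K A j (u j) := by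
  unfold W2 gf
  rw [Finset.prod_ite_mem, Finset.univ_inter]

theorem sum_sgn (K : ℕ) : ∑ r, sgn K r = 0 := by
  have h1 : ∑ r : Fin (2 * K), sgn K r =
      ∑ r ∈ Finset.range (2 * K), (if r < K then (1 : ℝ) else -1) :=
    Fin.sum_univ_eq_sum_range (fun r => if r < K then (1 : ℝ) else -1) (2 * K)
  rw [h1, two_mul, Finset.sum_range_add]
  have h2 : ∑ x ∈ Finset.range K, (if x < K then (1 : ℝ) else -1) = K := by
    rw [Finset.sum_congr rfl fun x hx => if_pos (Finset.mem_range.1 hx)]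
    rw [Finset.sum_const, Finset.card_range, nsmul_eq_mul, mul_one]
  have h3 : ∑ x ∈ Finset.range K, (if K + x < K then (1 : ℝ) else -1) = -K := by
    rw [Finset.sum_congr rfl fun x _ => if_neg (show ¬ K + x < K by omega)]
    rw [Finset.sum_const, Finset.card_range, nsmul_eq_mul, mul_neg, mul_one]
  rw [h2, h3, add_neg_cancel]

theorem sgn_sq (K : ℕ) (r : Fin (2 * K)) : sgn K r * sgn K r = 1 := by
  unfold sgn
  split_ifs <;> norm_num

theorem sum_one (K : ℕ) : ∑ _r : Fin (2 * K), (1 : ℝ) = ((2 * K : ℕ) : ℝ) := by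
  rw [Finset.sum_const, Finset.card_univ, Fintype.card_fin, nsmul_eq_mul, mul_one]

theorem sum_gf (K : ℕ) (A : Finset (Fin K)) (j : Fin K) :
    ∑ r, gf K A j r = ((2 * K : ℕ) : ℝ) := by
  unfold gf
  by_cases h : j ∈ A
  · simp only [if_pos h]
    rw [Finset.sum_add_distrib, ← Finset.sum_div, sum_sgn, sum_one, zero_div, add_zero]
  · simp only [if_neg h]
    exact sum_one K

theorem factor_pos (K : ℕ) (r : Fin (2 * K)) : 0 < 1 + sgn K r / 2 := by
  unfold sgn
  split_ifs <;> norm_num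

theorem W2_pos (K : ℕ) (A : Finset (Fin K)) (u : Fin K → Fin (2 * K)) : 0 < W2 K A u :=
  Finset.prod_pos fun i _ => factor_pos K (u i)

/-- the marginals -/
theorem marg (h : S_prod1) {K : ℕ} (hK : 1 ≤ K) (A : Finset (Fin K)) (i : Fin K)
    (φ : Fin (2 * K) → ℝ) : ∑ u, W2 K A u * φ (u i) =
      ((2 * K : ℕ) : ℝ) ^ K * ((∑ r, gf K A i r * φ r) / ((2 * K : ℕ) : ℝ)) := by
  have h1 := h K (2 * K) (gf K A) (sum_gf K A) i φ
  have hR : ((2 * K : ℕ) : ℝ) ≠ 0 := by
    have : 2 * K ≠ 0 := by omega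
    exact_mod_cast this
  have h2 : ∑ u : Fin K → Fin (2 * K), (∏ j, gf K A j (u j)) * φ (u i) =
      ∑ u, W2 K A u * φ (u i) := Finset.sum_congr rfl fun u _ => by rw [W2_eq]
  rw [h2] at h1
  rw [← mul_div_assoc, eq_div_iff hR, ← h1, mul_comm]

theorem sum_sgn_mul_nonneg {K : ℕ} (hK : 1 ≤ K) {ψ : Fin (2 * K) → ℝ} (hψ : Antitone ψ) :
    0 ≤ ∑ r, sgn K r * ψ r := by
  have hlt : K < 2 * K := by omega
  have h1 : ∑ r, sgn K r * ψ r = ∑ r, sgn K r * (ψ r - ψ ⟨K, hlt⟩) := by
    have : ∑ r, sgn K r * (ψ r - ψ ⟨K, hlt⟩) =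
        ∑ r, sgn K r * ψ r - (∑ r, sgn K r) * ψ ⟨K, hlt⟩ := by
      rw [Finset.sum_mul, ← Finset.sum_sub_distrib]
      exact Finset.sum_congr rfl fun r _ => by ring
    rw [this, sum_sgn, zero_mul, sub_zero]
  rw [h1]
  refine Finset.sum_nonneg fun r _ => ?_
  unfold sgn
  by_cases hr : (r : ℕ) < K
  · rw [if_pos hr, one_mul, sub_nonneg]
    exact hψ (Fin.le_def.2 hr.le)
  · rw [if_neg hr]
    have : ψ r ≤ ψ ⟨K, hlt⟩ := hψ (Fin.le_def.2 (not_lt.1 hr))
    linarith

theorem w2 (h : S_prod1) : S_w2 := by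
  intro K A hK
  have hR0 : (0 : ℝ) < ((2 * K : ℕ) : ℝ) := by
    have : 0 < 2 * K := by omega
    exact_mod_cast this
  have hcast : ((2 * K : ℕ) : ℝ) = 2 * (K : ℝ) := by push_cast; ring
  refine ⟨W2_pos K A, ?_, ?_, ?_⟩
  · have h1 := marg h hK A ⟨0, hK⟩ (fun _ => 1)
    simp only [mul_one] at h1
    rw [h1, sum_gf, div_self hR0.ne', mul_one]
  · have hlog : ∀ u, W2 K A u * Real.log (W2 K A u) ≤
        ∑ i ∈ A, (1 / 2) * (W2 K A u * sgn K (u i)) := by
      intro u
      have h1 : Real.log (W2 K A u) ≤ ∑ i ∈ A, sgn K (u i) / 2 := by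
        unfold W2
        rw [Real.log_prod fun i _ => (factor_pos K (u i)).ne']
        refine Finset.sum_le_sum fun i _ => ?_
        have := Real.log_le_sub_one_of_pos (factor_pos K (u i))
        linarith
      refine (mul_le_mul_of_nonneg_left h1 (W2_pos K A u).le).trans (le_of_eq ?_)
      rw [Finset.mul_sum]
      exact Finset.sum_congr rfl fun i _ => by ring
    have hm : ∀ i ∈ A, ∑ u, W2 K A u * sgn K (u i) = ((2 * K : ℕ) : ℝ) ^ K * (1 / 2) := by
      intro i hi
      rw [marg h hK A i (sgn K)]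
      have h2 : ∑ r, gf K A i r * sgn K r = ((2 * K : ℕ) : ℝ) / 2 := by
        have h3 : ∀ r : Fin (2 * K), gf K A i r * sgn K r = sgn K r + 1 / 2 := by
          intro r
          unfold gf
          rw [if_pos hi]
          have := sgn_sq K r
          linear_combination (1 / 2 : ℝ) * this
        rw [Finset.sum_congr rfl fun r _ => h3 r, Finset.sum_add_distrib, sum_sgn, zero_add,
          Finset.sum_const, Finset.card_univ, Fintype.card_fin, nsmul_eq_mul]
        ring
      rw [h2]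
      field_simp
    calc ∑ u, W2 K A u * Real.log (W2 K A u)
        ≤ ∑ u, ∑ i ∈ A, (1 / 2) * (W2 K A u * sgn K (u i)) :=
          Finset.sum_le_sum fun u _ => hlog u
      _ = ∑ i ∈ A, (1 / 2) * ∑ u, W2 K A u * sgn K (u i) := by
          rw [Finset.sum_comm]
          exact Finset.sum_congr rfl fun i _ => (Finset.mul_sum _ _ _).symm
      _ = ∑ i ∈ A, (1 / 2) * (((2 * K : ℕ) : ℝ) ^ K * (1 / 2)) :=
          Finset.sum_congr rfl fun i hi => by rw [hm i hi]
      _ = ((2 * K : ℕ) : ℝ) ^ K * ((A.card : ℝ) / 4) := by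
          rw [Finset.sum_const, nsmul_eq_mul]
          ring
      _ ≤ _ := le_rfl
  · intro ψ hψ i
    rw [marg h hK A i ψ, hcast]
    apply mul_le_mul_of_nonneg_left _ (by positivity)
    apply div_le_div_of_nonneg_right _ (by positivity)
    unfold gf
    by_cases hi : i ∈ A
    · simp only [if_pos hi]
      have h1 := sum_sgn_mul_nonneg hK hψ
      have h2 : ∑ r, (1 + sgn K r / 2) * ψ r = ∑ r, ψ r + (1 / 2) * ∑ r, sgn K r * ψ r := by
        rw [Finset.mul_sum, ← Finset.sum_add_distrib]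
        exact Finset.sum_congr rfl fun r _ => by ring
      rw [h2]
      linarith
    · simp only [if_neg hi, one_mul]
      exact le_rfl

end

end Pool.Agent.H967.TKw2
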