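import Pool.Agent.H770.GS.TD
import Pool.Agent.H37.GSmono

/-!
# Project TD: the weight `Mc r c a / W a` is monotone on `[0, 2r/c]` for `1 ≤ c ≤ √3`, `r ≤ 1`
-/

set_option autoImplicit false

open MeasureTheory Set intervalIntegral

namespace Pool.Agent.H967.TDmono2

open Pool.Agent.H770.GS Pool.Agent.H37.GSmono

theorem B_nonneg {r s x : ℝ} (hr0 : 0 < r) (hr : r ^ 2 ≤ 1) (hs1 : 1 ≤ s) (hs2 : s ≤ 3)
    (h0 : 0 ≤ x) (hx : x ≤ 2 * r) :
    0 ≤ s * (2 - r ^ 2) + 1 + r * x * (5 / 2 * s - 1) + x ^ 2 * (3 / 2 - 7 / 4 * s) := by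
  have e : 2 * r * (s * (2 - r ^ 2) + 1 + r * x * (5 / 2 * s - 1) + x ^ 2 * (3 / 2 - 7 / 4 * s)) =
      (2 * r - x) * (s * (2 - r ^ 2) + 1) + x * (s * (2 - 3 * r ^ 2) + 1 + 4 * r ^ 2) +
        2 * r * (7 / 4 * s - 3 / 2) * (x * (2 * r - x)) := by ring
  have h1 : 0 ≤ s * (2 - r ^ 2) + 1 := by
    have : 0 ≤ s * (2 - r ^ 2) := mul_nonneg (by linarith) (by linarith)
    linarith
  have h2 : 0 ≤ s * (2 - 3 * r ^ 2) + 1 + 4 * r ^ 2 := by
    have e2 : s * (2 - 3 * r ^ 2) + 1 + 4 * r ^ 2 =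
        (3 - s) / 2 * (3 + r ^ 2) + (s - 1) / 2 * (7 - 5 * r ^ 2) := by
      ring
    rw [e2]
    have : 0 ≤ (3 - s) / 2 * (3 + r ^ 2) := mul_nonneg (by linarith) (by positivity)
    have : 0 ≤ (s - 1) / 2 * (7 - 5 * r ^ 2) := mul_nonneg (by linarith) (by linarith)
    linarith
  have h3 : 0 ≤ 2 * r * (s * (2 - r ^ 2) + 1 + r * x * (5 / 2 * s - 1) +
      x ^ 2 * (3 / 2 - 7 / 4 * s)) := by
    rw [e]
    have a1 : 0 ≤ (2 * r - x) * (s * (2 - r ^ 2) + 1) := mul_nonneg (by linarith) h1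
    have a2 : 0 ≤ x * (s * (2 - 3 * r ^ 2) + 1 + 4 * r ^ 2) := mul_nonneg h0 h2
    have a3 : 0 ≤ 2 * r * (7 / 4 * s - 3 / 2) * (x * (2 * r - x)) :=
      mul_nonneg (mul_nonneg (by linarith) (by linarith)) (mul_nonneg h0 (by linarith))
    linarith
  exact nonneg_of_mul_nonneg_right h3 (by linarith)

theorem A_nonneg {s X : ℝ} (hs1 : 1 ≤ s) (hs2 : s ≤ 3) (h0 : 0 ≤ X) (hX : X ≤ 4) :
    0 ≤ 3 * s / 4 + X * (2 - s) / 8 := by
  have e : 3 * s / 4 + X * (2 - s) / 8 = (4 - X) / 4 * (3 * s / 4) + X / 4 * (s / 4 + 1) := by ring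
  rw [e]
  have a1 : 0 ≤ (4 - X) / 4 * (3 * s / 4) := mul_nonneg (by linarith) (by linarith)
  have a2 : 0 ≤ X / 4 * (s / 4 + 1) := mul_nonneg (by linarith) (by linarith)
  linarith

theorem mono2 : S_mono2 := by
  intro r c hr hr1 hc1 hc2
  have hc : 0 < c := by linarith
  have hr2 : r ^ 2 ≤ 1 := pow_le_one₀ hr.le hr1
  have hdom : ∀ a, 0 ≤ a → a ≤ 2 * r / c → 0 ≤ c * a ∧ c * a ≤ 2 * r := by
    intro a h0 h1
    refine ⟨by positivity, ?_⟩
    rw [le_div_iff₀ hc] at h1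
    linarith
  constructor
  · have hd : ∀ a : ℝ, HasDerivAt (fun a => Mc r c a / W a)
        ((M1d r (c * a) * c * W a - M1 r (c * a) * (-(a * W a))) / W a ^ 2) a := by
      intro a
      have h1 : HasDerivAt (fun a : ℝ => c * a) c a := by
        simpa using (hasDerivAt_id a).const_mul c
      have h2 : HasDerivAt (fun a => M1 r (c * a)) (M1d r (c * a) * c) a :=
        (M1_deriv r (c * a)).comp a h1
      have h3 : (fun a => Mc r c a / W a) = fun a => M1 r (c * a) / W a := by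
        funext a
        rw [Mc_eq]
      rw [h3]
      exact h2.div (W_deriv a) (W_pos a).ne'
    refine monotoneOn_of_deriv_nonneg (convex_Icc _ _) ?_ ?_ ?_
    · exact fun x _ => (hd x).continuousAt.continuousWithinAt
    · exact fun x _ => (hd x).differentiableAt.differentiableWithinAt
    · intro a ha
      rw [interior_Icc] at ha
      rw [(hd a).deriv]
      obtain ⟨hx0, hx1⟩ := hdom a ha.1.le ha.2.le
      refine div_nonneg ?_ (by positivity)
      have hW := W_pos a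
      have e : M1d r (c * a) * c * W a - M1 r (c * a) * (-(a * W a)) =
          (c * M1d r (c * a) + a * M1 r (c * a)) * W a := by ring
      rw [e]
      refine mul_nonneg ?_ hW.le
      have hkey : 0 ≤ c * (c * M1d r (c * a) + a * M1 r (c * a)) := by
        have e2 : c * (c * M1d r (c * a) + a * M1 r (c * a)) =
            fL r (c * a) * ((c * a) ^ 2 * (3 * c ^ 2 / 4 + (c * a) ^ 2 * (2 - c ^ 2) / 8)) +
            ee r (c * a) * ((c * a) * (c ^ 2 * (2 - r ^ 2) + 1 +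
              r * (c * a) * (5 / 2 * c ^ 2 - 1) + (c * a) ^ 2 * (3 / 2 - 7 / 4 * c ^ 2))) := by
          unfold M1d M1
          ring
        rw [e2]
        have hf := fL_nonneg hx1
        have he := (ee_pos r (c * a)).le
        have hc21 : (1 : ℝ) ≤ c ^ 2 := one_le_pow₀ hc1
        have hB := B_nonneg hr hr2 hc21 hc2 hx0 hx1
        have hx2 : (c * a) ^ 2 ≤ 4 := by
          have h7 : (c * a) ^ 2 ≤ 2 ^ 2 := pow_le_pow_left₀ hx0 (by linarith) 2
          linarith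
        have hA := A_nonneg hc21 hc2 (sq_nonneg (c * a)) hx2
        have h5 : 0 ≤ fL r (c * a) * ((c * a) ^ 2 * (3 * c ^ 2 / 4 + (c * a) ^ 2 * (2 - c ^ 2) / 8)) :=
          mul_nonneg hf (mul_nonneg (sq_nonneg _) hA)
        have h6 := mul_nonneg he (mul_nonneg hx0 hB)
        linarith
      exact nonneg_of_mul_nonneg_right hkey hc
  · intro a ha
    obtain ⟨hx0, hx1⟩ := hdom a ha.1 ha.2
    rw [Mc_eq]
    exact M1_nonneg (by linarith) hx0 hx1

end Pool.Agent.H967.TDmono2
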