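import Pool.Agent.H316.EM.Stm2

/-!
# MP_e2f787 (S03350): the group theoretic part S_GRP (subtask 1776 for helper316)
-/

set_option autoImplicit false

namespace Pool.Agent.H967.EMGRP

open Pool.Agent.H316.EM

/-- subgroups of `ℤ²` are finitely generated -/
theorem fgB (K : Subgroup B) : K.FG := by
  rw [Subgroup.fg_iff_add_fg]
  have h : ∀ L : AddSubgroup (ℤ × ℤ), L.FG := by
    intro L
    have := IsNoetherian.noetherian (AddSubgroup.toIntSubmodule L)
    rw [Submodule.fg_iff_addSubgroup_fg] at this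
    simpa using this
  exact h _

theorem fgMap {G G' : Type} [Group G] [Group G'] {K : Subgroup G} (h : K.FG) (f : G →* G') :
    (K.map f).FG := by
  classical
  obtain ⟨S, hS⟩ := h
  refine ⟨S.image f, ?_⟩
  rw [← hS, MonoidHom.map_closure]
  simp

/-- the group `H = ℤ² ⋊ ℤ` -/
abbrev HH := B ⋊[zpowersHom (MulAut B) th] Multiplicative ℤ

theorem fgHH (K : Subgroup HH) : K.FG := by
  classical
  -- the image in `ℤ` is cyclic
  obtain ⟨g, hg⟩ : ∃ g : Multiplicative ℤ, K.map SemidirectProduct.rightHom = Subgroup.zpowers g := by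
    have : IsCyclic (K.map (SemidirectProduct.rightHom (φ := zpowersHom (MulAut B) th))) := inferInstance
    rw [Subgroup.isCyclic_iff_exists_zpowers_eq_top] at this
    obtain ⟨g, hg⟩ := this
    exact ⟨g, hg.symm⟩
  obtain ⟨k, hk, hkg⟩ : ∃ k ∈ K, SemidirectProduct.rightHom k = g := by
    have : g ∈ K.map (SemidirectProduct.rightHom (φ := zpowersHom (MulAut B) th)) := by
      rw [hg]; exact Subgroup.mem_zpowers g
    obtain ⟨k, hk, h⟩ := this
    exact ⟨k, hk, h⟩
  have hK : K = (K.comap (SemidirectProduct.inl (φ := zpowersHom (MulAut B) th))).map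
      SemidirectProduct.inl ⊔ Subgroup.zpowers k := by
    apply le_antisymm
    · intro x hx
      have h1 : SemidirectProduct.rightHom x ∈ Subgroup.zpowers g := by
        rw [← hg]; exact ⟨x, hx, rfl⟩
      obtain ⟨n, hn⟩ := h1
      have h2 : SemidirectProduct.rightHom (x * k ^ (-n)) = 1 := by
        rw [map_mul, map_zpow, hkg]
        have : g ^ n = SemidirectProduct.rightHom x := hn
        rw [← this, ← zpow_add, add_neg_cancel, zpow_zero]
      have h3 : x * k ^ (-n) ∈ (SemidirectProduct.inl (φ := zpowersHom (MulAut B) th)).range := by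
        rw [SemidirectProduct.range_inl_eq_ker_rightHom]
        exact h2
      obtain ⟨b, hb⟩ := h3
      have h4 : x = SemidirectProduct.inl b * k ^ n := by
        rw [hb, mul_assoc, ← zpow_add, neg_add_cancel, zpow_zero, mul_one]
      rw [h4]
      refine Subgroup.mul_mem_sup ⟨b, ?_, rfl⟩ (Subgroup.zpow_mem_zpowers k n)
      show SemidirectProduct.inl b ∈ K
      rw [hb]
      exact K.mul_mem hx (K.zpow_mem hk _)
    · refine sup_le ?_ ?_
      · rintro _ ⟨b, hb, rfl⟩
        exact hb
      · rw [Subgroup.zpowers_le]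
        exact hk
  rw [hK]
  refine Subgroup.FG.sup ?_ ?_
  · exact fgMap (fgB _) _
  · exact ⟨{k}, by simp [Subgroup.zpowers_eq_closure]⟩

theorem solvHH : Group.IsSolvable HH := by
  refine Group.isSolvable_of_ker_le_range (SemidirectProduct.inl (φ := zpowersHom (MulAut B) th))
    SemidirectProduct.rightHom ?_
  rw [SemidirectProduct.range_inl_eq_ker_rightHom]

/-! ### the action on `AA` -/

theorem inv_apply_self' {V : Type} [AddCommGroup V] [Module (ZMod 2) V] (x : Au V) (a : V) :
    x⁻¹ (x a) = a := by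
  rw [← LinearEquiv.mul_apply, inv_mul_cancel]; rfl

theorem apply_inv_self' {V : Type} [AddCommGroup V] [Module (ZMod 2) V] (x : Au V) (a : V) :
    x (x⁻¹ a) = a := by
  rw [← LinearEquiv.mul_apply, mul_inv_cancel]; rfl

/-- restriction of an automorphism preserving `AA` -/
noncomputable def res (x : Au KK) (h1 : ∀ a ∈ AA, x a ∈ AA) (h2 : ∀ a ∈ AA, x⁻¹ a ∈ AA) :
    MulAut (Multiplicative AA) :=
  AddEquiv.toMultiplicative
    { toFun := fun a => ⟨x a, h1 a a.2⟩
      invFun := fun a => ⟨x⁻¹ a, h2 a a.2⟩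
      left_inv := fun a => by
        ext
        exact congrArg (fun z : KK => (z : KK)) (inv_apply_self' x (a : KK))
      right_inv := fun a => by
        ext
        exact congrArg (fun z : KK => (z : KK)) (apply_inv_self' x (a : KK))
      map_add' := fun a b => by
        ext
        exact map_add x (a : KK) b }

theorem res_apply (x : Au KK) (h1 : ∀ a ∈ AA, x a ∈ AA) (h2 : ∀ a ∈ AA, x⁻¹ a ∈ AA)
    (a : KK) (ha : a ∈ AA) :
    res x h1 h2 (Multiplicative.ofAdd ⟨a, ha⟩) = Multiplicative.ofAdd ⟨x a, h1 a ha⟩ := rfl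

theorem res_val (x : Au KK) (h1 : ∀ a ∈ AA, x a ∈ AA) (h2 : ∀ a ∈ AA, x⁻¹ a ∈ AA)
    (a : Multiplicative AA) :
    ((Multiplicative.toAdd (res x h1 h2 a) : AA) : KK) = x ((Multiplicative.toAdd a : AA) : KK) := rfl

theorem ext_val {φ ψ : MulAut (Multiplicative AA)}
    (h : ∀ a : Multiplicative AA, ((Multiplicative.toAdd (φ a) : AA) : KK) = ((Multiplicative.toAdd (ψ a) : AA) : KK)) :
    φ = ψ := by
  ext a
  exact h a

theorem compat {N H : Type} [Group N] [Group H] (f : N →* H) (θ : MulAut N) (τ : H)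
    (h : ∀ b, f (θ b) = τ * f b * τ⁻¹) (n : ℤ) : ∀ b, f ((θ ^ n) b) = τ ^ n * f b * (τ ^ n)⁻¹ := by
  induction n using Int.induction_on with
  | zero => intro b; simp
  | succ n ih =>
    intro b
    rw [zpow_add_one, MulAut.mul_apply, ih, h, zpow_add_one]
    group
  | pred n ih =>
    intro b
    have h' : f (θ⁻¹ b) = τ⁻¹ * f b * τ := by
      have := h (θ⁻¹ b)
      rw [MulAut.apply_inv_self] at this
      rw [this]
      group
    rw [zpow_sub_one, MulAut.mul_apply, ih, h', zpow_sub_one]
    group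

section
variable (h : S_AAUN)
include h

theorem tA_mem (a : KK) (ha : a ∈ AA) : tA a ∈ AA := (h.2.2.2.1 a).1 ha

theorem tA_inv_mem (a : KK) (ha : a ∈ AA) : tA⁻¹ a ∈ AA := by
  rw [h.2.2.2.1, apply_inv_self']
  exact ha

theorem mB_inv_mem (b : B) (a : KK) (ha : a ∈ AA) : (mB b)⁻¹ a ∈ AA := by
  rw [← map_inv]
  exact h.2.2.1 _ a ha

/-- the action of `t` -/
noncomputable def tau : MulAut (Multiplicative AA) := res tA (tA_mem h) (tA_inv_mem h)

/-- the action of `B` -/
noncomputable def bet : B →* MulAut (Multiplicative AA) where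
  toFun b := res (mB b) (h.2.2.1 b) (mB_inv_mem h b)
  map_one' := by
    apply ext_val
    intro a
    rw [res_val, map_one]
    rfl
  map_mul' b c := by
    apply ext_val
    intro a
    rw [res_val, map_mul]
    rfl

theorem bet_th (b : B) : bet h (th b) = tau h * bet h b * (tau h)⁻¹ := by
  rw [eq_mul_inv_iff_mul_eq]
  apply ext_val
  intro a
  show mB (th b) (tA ((Multiplicative.toAdd a : AA) : KK)) = tA (mB b ((Multiplicative.toAdd a : AA) : KK))
  have := h.2.2.2.2 b
  rw [mul_inv_eq_iff_eq_mul] at this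
  have h2 := congrArg (fun x : Au KK => x ((Multiplicative.toAdd a : AA) : KK)) this
  exact h2.symm

/-- the action of `H` on `AA` -/
noncomputable def psi : HH →* MulAut (Multiplicative AA) :=
  SemidirectProduct.lift (bet h) (zpowersHom _ (tau h)) (by
    intro g
    refine MonoidHom.ext fun b => ?_
    have := compat (bet h) th (tau h) (bet_th h) (Multiplicative.toAdd g) b
    show bet h ((th ^ (Multiplicative.toAdd g)) b) =
      MulAut.conj (tau h ^ (Multiplicative.toAdd g)) (bet h b)
    rw [MulAut.conj_apply]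
    exact this)

/-- the group `G` -/
abbrev GG := Multiplicative AA ⋊[psi h] HH

theorem one_mem_AA : (1 : KK) ∈ AA := by
  rw [h.1]
  exact ⟨0, 1, ⟨1, by simp⟩, by simp⟩

theorem psi_inl (b : B) : psi h (SemidirectProduct.inl b) = bet h b := by
  simp [psi]

theorem psi_inr : psi h (SemidirectProduct.inr (Multiplicative.ofAdd 1)) = tau h := by
  simp [psi]

/-- the image of an element of `AA` in `G` -/
noncomputable def iA (a : KK) (ha : a ∈ AA) : GG h :=
  SemidirectProduct.inl (Multiplicative.ofAdd (⟨a, ha⟩ : AA))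

/-- the image of an element of `B` in `G` -/
noncomputable def iB : B →* GG h :=
  (SemidirectProduct.inr : HH →* GG h).comp SemidirectProduct.inl

/-- the element `t` of `G` -/
noncomputable def iT : GG h := SemidirectProduct.inr (SemidirectProduct.inr (Multiplicative.ofAdd 1))

theorem iA_add (a a' : KK) (ha : a ∈ AA) (ha' : a' ∈ AA) :
    iA h (a + a') (AA.add_mem ha ha') = iA h a ha * iA h a' ha' := by
  rw [iA, iA, iA, ← map_mul]
  rfl

theorem iA_injective (a a' : KK) (ha : a ∈ AA) (ha' : a' ∈ AA) (e : iA h a ha = iA h a' ha') : a = a' := by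
  have := SemidirectProduct.inl_injective e
  exact congrArg (fun x : Multiplicative AA => ((Multiplicative.toAdd x : AA) : KK)) this

theorem iB_iA (b : B) (a : KK) (ha : a ∈ AA) :
    iB h b * iA h a ha * (iB h b)⁻¹ = iA h (mB b a) (h.2.2.1 b a ha) := by
  have := SemidirectProduct.inl_aut (φ := psi h) (SemidirectProduct.inl b)
    (Multiplicative.ofAdd (⟨a, ha⟩ : AA))
  rw [psi_inl] at this
  rw [iB, iA, iA, MonoidHom.comp_apply, ← map_inv, ← this]
  rfl

theorem iT_iA (a : KK) (ha : a ∈ AA) :
    iT h * iA h a ha * (iT h)⁻¹ = iA h (tA a) (tA_mem h a ha) := by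
  have := SemidirectProduct.inl_aut (φ := psi h) (SemidirectProduct.inr (Multiplicative.ofAdd 1))
    (Multiplicative.ofAdd (⟨a, ha⟩ : AA))
  rw [psi_inr] at this
  rw [iT, iA, iA, ← map_inv, ← this]
  rfl

theorem iT_iB (b : B) : iT h * iB h b * (iT h)⁻¹ = iB h (th b) := by
  have := SemidirectProduct.inl_aut (φ := zpowersHom (MulAut B) th) (Multiplicative.ofAdd 1) b
  have h1 : (zpowersHom (MulAut B) th) (Multiplicative.ofAdd 1) = th := by simp [zpowersHom_apply]
  rw [h1] at this
  rw [iT, iB, MonoidHom.comp_apply, MonoidHom.comp_apply, this, ← map_inv, ← map_mul, ← map_mul, ← map_inv]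

theorem b_gen (b : B) (S : Subgroup (GG h)) (h0 : iB h b0 ∈ S)
    (h1 : iB h (Multiplicative.ofAdd (0, 1)) ∈ S) : iB h b ∈ S := by
  have hb : b = b0 ^ (Multiplicative.toAdd b).1 * (Multiplicative.ofAdd ((0, 1) : ℤ × ℤ)) ^ (Multiplicative.toAdd b).2 := by
    apply Multiplicative.toAdd.injective
    rw [toAdd_mul, toAdd_zpow, toAdd_zpow, b0]
    ext <;> simp
  rw [hb, map_mul, map_zpow, map_zpow]
  exact S.mul_mem (S.zpow_mem h0 _) (S.zpow_mem h1 _)

theorem gen_AA (S : Subgroup (GG h)) (hB : ∀ b, iB h b ∈ S) (hT : iT h ∈ S)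
    (h1 : iA h 1 (one_mem_AA h) ∈ S) (a : KK) (ha : a ∈ AA) : iA h a ha ∈ S := by
  -- elements of `FBK`
  have hF : ∀ y : FB, ∀ hy : algebraMap FB KK y ∈ AA, iA h (algebraMap FB KK y) hy ∈ S := by
    have hF' : ∀ y : FB, ∃ hy : algebraMap FB KK y ∈ AA, iA h (algebraMap FB KK y) hy ∈ S := by
      intro y
      induction y using MonoidAlgebra.induction_on with
      | of b =>
        have e : algebraMap FB KK (MonoidAlgebra.of (ZMod 2) B b) = mB b 1 := by
          rw [mB_apply, mul_one]; rfl
        have hm : mB b 1 ∈ AA := h.2.2.1 b 1 (one_mem_AA h)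
        have hS : iA h (mB b 1) hm ∈ S := by
          rw [← iB_iA h b 1 (one_mem_AA h)]
          exact S.mul_mem (S.mul_mem (hB b) h1) (S.inv_mem (hB b))
        refine ⟨e ▸ hm, ?_⟩
        have : iA h (algebraMap FB KK (MonoidAlgebra.of (ZMod 2) B b)) (e ▸ hm) = iA h (mB b 1) hm := by
          unfold iA
          congr 3
        rw [this]
        exact hS
      | add x y hx hy =>
        obtain ⟨hx, hx'⟩ := hx
        obtain ⟨hy, hy'⟩ := hy
        have e : algebraMap FB KK (x + y) = algebraMap FB KK x + algebraMap FB KK y := map_add _ _ _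
        refine ⟨e ▸ AA.add_mem hx hy, ?_⟩
        have : iA h (algebraMap FB KK (x + y)) (e ▸ AA.add_mem hx hy) =
            iA h (algebraMap FB KK x + algebraMap FB KK y) (AA.add_mem hx hy) := by
          unfold iA
          congr 3
        rw [this, iA_add h _ _ hx hy]
        exact S.mul_mem hx' hy'
      | smul r x hx =>
        obtain ⟨hx, hx'⟩ := hx
        rcases (by decide : ∀ c : ZMod 2, c = 0 ∨ c = 1) r with rfl | rfl
        · have e : algebraMap FB KK ((0 : ZMod 2) • x) = 0 := by rw [zero_smul, map_zero]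
          refine ⟨e ▸ AA.zero_mem, ?_⟩
          have : iA h (algebraMap FB KK ((0 : ZMod 2) • x)) (e ▸ AA.zero_mem) = 1 := by
            have e2 : iA h (algebraMap FB KK ((0 : ZMod 2) • x)) (e ▸ AA.zero_mem) = iA h 0 AA.zero_mem := by
              unfold iA
              congr 3
            rw [e2]
            unfold iA
            exact map_one _
          rw [this]
          exact S.one_mem
        · have e : (1 : ZMod 2) • x = x := one_smul _ x
          rw [e]
          exact ⟨hx, hx'⟩
    intro y hy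
    exact (hF' y).2
  obtain ⟨n, y, hy, rfl⟩ := (h.1 a).1 ha
  have key : ∀ n : ℕ, ∀ y ∈ AA, (∀ hy : y ∈ AA, iA h y hy ∈ S) → ∀ hz : (tA ^ n) y ∈ AA, iA h ((tA ^ n) y) hz ∈ S := by
    intro n
    induction n with
    | zero =>
      intro y hy h2 hz
      exact h2 hz
    | succ n ih =>
      intro y hy h2 hz
      have hy1 : tA y ∈ AA := tA_mem h y hy
      have := ih (tA y) hy1 (fun hy' => by
        rw [← iT_iA h y hy]
        exact S.mul_mem (S.mul_mem hT (h2 hy)) (S.inv_mem hT))
      have e : (tA ^ (n + 1)) y = (tA ^ n) (tA y) := by rw [pow_succ]; rfl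
      have := this (e ▸ hz)
      have e2 : iA h ((tA ^ (n + 1)) y) hz = iA h ((tA ^ n) (tA y)) (e ▸ hz) := by
        unfold iA
        congr 3
      rw [e2]
      exact this
  obtain ⟨x, rfl⟩ := (mem_FBK y).1 hy
  have hx : algebraMap FB KK x ∈ AA := (h.1 _).2 ⟨0, algebraMap FB KK x, hy, rfl⟩
  exact key n _ hx (fun hy' => hF x hy') ha

theorem GG_fg : Group.FG (GG h) := by
  classical
  rw [Group.fg_iff]
  refine ⟨{iA h 1 (one_mem_AA h), iB h b0, iB h (Multiplicative.ofAdd (0, 1)), iT h}, ?_, Set.toFinite _⟩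
  rw [eq_top_iff]
  rintro ⟨a, ⟨b, k⟩⟩ -
  set S := Subgroup.closure ({iA h 1 (one_mem_AA h), iB h b0, iB h (Multiplicative.ofAdd (0, 1)), iT h} : Set (GG h))
    with hS
  have m1 : iA h 1 (one_mem_AA h) ∈ S := Subgroup.subset_closure (by simp)
  have m2 : iB h b0 ∈ S := Subgroup.subset_closure (by simp)
  have m3 : iB h (Multiplicative.ofAdd (0, 1)) ∈ S := Subgroup.subset_closure (by simp)
  have m4 : iT h ∈ S := Subgroup.subset_closure (by simp)
  have mB' : ∀ b, iB h b ∈ S := fun b => b_gen h b S m2 m3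
  have e : (⟨a, ⟨b, k⟩⟩ : GG h) = SemidirectProduct.inl a * SemidirectProduct.inr ⟨b, k⟩ :=
    (SemidirectProduct.inl_left_mul_inr_right _).symm
  have e1 : (⟨b, k⟩ : HH) = SemidirectProduct.inl b * SemidirectProduct.inr k :=
    (SemidirectProduct.inl_left_mul_inr_right _).symm
  have e2 : k = (Multiplicative.ofAdd (1 : ℤ)) ^ (Multiplicative.toAdd k) := by
    apply Multiplicative.toAdd.injective
    simp
  rw [e, e1, map_mul]
  refine S.mul_mem ?_ (S.mul_mem (mB' b) ?_)
  · exact gen_AA h S mB' m4 m1 ((Multiplicative.toAdd a : AA) : KK) (Multiplicative.toAdd a : AA).2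
  · rw [e2, map_zpow, map_zpow]
    exact S.zpow_mem m4 _

end

theorem em_grp0 : S_AAUN → S_GRP := by
  classical
  intro h hAct hall
  have : Group.FG (GG h) := GG_fg h
  let A : Subgroup (GG h) := (SemidirectProduct.rightHom (φ := psi h)).ker
  let e : (GG h ⧸ A) ≃* HH :=
    QuotientGroup.quotientKerEquivOfSurjective _ SemidirectProduct.rightHom_surjective
  obtain ⟨M, _, hfg, hder, f, hf⟩ := hall (GG h) A (by
      intro x hx y hy
      have hx' : x ∈ (SemidirectProduct.inl (φ := psi h)).range := by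
        rw [SemidirectProduct.range_inl_eq_ker_rightHom]; exact hx
      have hy' : y ∈ (SemidirectProduct.inl (φ := psi h)).range := by
        rw [SemidirectProduct.range_inl_eq_ker_rightHom]; exact hy
      obtain ⟨a, rfl⟩ := hx'
      obtain ⟨b, rfl⟩ := hy'
      rw [← map_mul, ← map_mul, mul_comm]) (by
      intro K
      have h1 := fgHH (K.map e.toMonoidHom)
      have h2 := fgMap h1 e.symm.toMonoidHom
      have h3 : (K.map e.toMonoidHom).map e.symm.toMonoidHom = K := by
        ext x
        simp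
      rwa [h3] at h2) (by
      refine ⟨⊤, by simp, ?_⟩
      have := solvHH
      exact Group.isSolvable_of_isSolvable_injective (f := e.toMonoidHom.comp (⊤ : Subgroup (GG h ⧸ A)).subtype)
        (e.injective.comp Subtype.val_injective))
  refine hAct M hder
    { ia := fun a => if ha : a ∈ AA then f (iA h a ha) else 1
      β := f.comp (iB h)
      t := f (iT h)
      iadd := ?_
      inj := ?_
      hβ := ?_
      ht := ?_
      tβ := ?_ }
  · intro a ha a' ha'
    rw [dif_pos ha, dif_pos ha', dif_pos (AA.add_mem ha ha'), iA_add, map_mul]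
  · intro a ha hh
    rw [dif_pos ha] at hh
    have : iA h a ha = 1 := hf (hh.trans (map_one f).symm)
    have h0 : iA h 0 AA.zero_mem = 1 := by
      unfold iA
      exact map_one _
    exact iA_injective h a 0 ha AA.zero_mem (this.trans h0.symm)
  · intro b a ha
    rw [dif_pos ha, dif_pos (h.2.2.1 b a ha), ← iB_iA, map_mul, map_mul, map_inv]
    rfl
  · intro a ha
    rw [dif_pos ha, dif_pos (tA_mem h a ha), ← iT_iA, map_mul, map_mul, map_inv]
  · intro b
    rw [MonoidHom.comp_apply, MonoidHom.comp_apply, ← iT_iB, map_mul, map_mul, map_inv]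

end Pool.Agent.H967.EMGRP

/-- subtask 1776 -/
theorem Pool.Agent.H967.em_grp : Pool.Agent.H316.EM.S_AAUN → Pool.Agent.H316.EM.S_GRP :=
  Pool.Agent.H967.EMGRP.em_grp0
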