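import Pool.Agent.H979.FR.Stm

set_option autoImplicit false

open Filter Topology Finset

/-! Task DEC of the project FR: uniform decay of the transition probabilities. -/

namespace Pool.Agent.H967

open Pool.Agent.H979.FR

namespace FRDEC

variable {V : Type} {G : SimpleGraph V} [G.LocallyFinite]

lemma pn_zero_self (x : V) : pn G 0 x x = 1 := by
  simp [pn]

lemma pn_succ (n : ℕ) (x y : V) : pn G (n + 1) x y = (∑ z ∈ G.neighborFinset x, pn G n z y) / G.degree x := rfl

/-- invariance under the automorphisms -/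
lemma pn_inv {d : ℕ} (hd : ∀ v, G.degree v = d) (φ : G ≃g G) (n : ℕ) :
    ∀ x y, pn G n (φ x) (φ y) = pn G n x y := by
  classical
  induction n with
  | zero =>
    intro x y
    simp only [pn, φ.injective.eq_iff]
  | succ n ih =>
    intro x y
    rw [pn_succ, pn_succ, hd, hd]
    congr 1
    symm
    refine Finset.sum_bij (fun z _ => φ z) ?_ ?_ ?_ ?_
    · intro z hz
      rw [SimpleGraph.mem_neighborFinset] at hz ⊢
      exact φ.map_adj_iff.2 hz
    · intro a _ b _ h
      exact φ.injective h
    · intro w hw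
      rw [SimpleGraph.mem_neighborFinset] at hw
      refine ⟨φ.symm w, ?_, φ.apply_symm_apply w⟩
      rw [SimpleGraph.mem_neighborFinset, ← φ.map_adj_iff, φ.apply_symm_apply]
      exact hw
    · intro z _
      exact (ih z y).symm

lemma pn_pos {d : ℕ} (hd0 : 0 < d) (hd : ∀ v, G.degree v = d) (hnn : ∀ n x y, 0 ≤ pn G n x y) {n : ℕ} {x w z : V}
    (h : G.Adj x w) (hw : 0 < pn G n w z) : 0 < pn G (n + 1) x z := by
  rw [pn_succ, hd]
  have hd' : (0 : ℝ) < d := by exact_mod_cast hd0
  refine div_pos ?_ hd'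
  refine lt_of_lt_of_le hw ?_
  exact Finset.single_le_sum (f := fun w => pn G n w z) (fun v _ => hnn n v z)
    ((G.mem_neighborFinset x w).2 h)

end FRDEC

open FRDEC in
theorem fr_dec (hS : S_SYM) (hR : S_REG) (hB : S_BALL) : S_DEC := by
  intro V _ G _ hc htr ε hε
  obtain ⟨d, hd2, hd⟩ := hR V G hc htr
  have hd0 : 0 < d := by omega
  obtain ⟨hnn, hsym, hone, hCK, -⟩ := hS V G d hd0 hd
  obtain ⟨-, hB2, -⟩ := hB V G hc
  have hball := hB2 inferInstance
  obtain ⟨o⟩ : Nonempty V := inferInstance
  set a : ℕ → ℝ := fun n => pn G (2 * n) o o with ha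
  have hdiag : ∀ n x, pn G (2 * n) x x = a n := by
    intro n x
    obtain ⟨φ, hφ⟩ := htr o x
    rw [← hφ, pn_inv hd]
  have hle : ∀ n x y, pn G (2 * n) x y ≤ a n := by
    intro n x y
    have h1 := hCK n n x y
    have h2 := ((hCK n n x x).add (hCK n n y y)).mul_right (1 / 2)
    have e : 2 * n = n + n := by ring
    have h3 : (pn G (n + n) x x + pn G (n + n) y y) * (1 / 2) = a n := by
      rw [← e, hdiag, hdiag]
      ring
    rw [h3] at h2
    rw [← e] at h1
    refine hasSum_le (fun z => ?_) h1 h2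
    rw [hsym n z x, hsym n y z]
    nlinarith [sq_nonneg (pn G n x z - pn G n z y)]
  have hstep : ∀ n y, HasSum (fun z => pn G 2 y z * (a n - pn G (2 * n) z o)) (a n - pn G (2 * (n + 1)) y o) := by
    intro n y
    have h1 := (hone 2 y).mul_right (a n)
    have h2 := hCK 2 (2 * n) y o
    have e : 2 + 2 * n = 2 * (n + 1) := by ring
    rw [e] at h2
    have h3 := h1.sub h2
    rw [one_mul] at h3
    refine h3.congr_fun ?_
    intro z
    ring
  have hanti : Antitone a := by
    refine antitone_nat_of_succ_le fun n => ?_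
    have h1 := hstep n o
    have h2 : 0 ≤ a n - pn G (2 * (n + 1)) o o :=
      h1.nonneg fun z => mul_nonneg (hnn 2 o z) (sub_nonneg.2 (hle n z o))
    show pn G (2 * (n + 1)) o o ≤ a n
    linarith
  have hbd : BddBelow (Set.range a) := ⟨0, by rintro _ ⟨n, rfl⟩; exact hnn _ _ _⟩
  have hlim : Tendsto a atTop (𝓝 (⨅ n, a n)) := tendsto_atTop_ciInf hanti hbd
  obtain ⟨l, hl⟩ : ∃ l, l = ⨅ n, a n := ⟨_, rfl⟩
  rw [← hl] at hlim
  have hl0 : 0 ≤ l := ge_of_tendsto' hlim fun n => hnn _ _ _
  have hzero : l = 0 := by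
    by_contra hne
    have hlpos : 0 < l := lt_of_le_of_ne hl0 (Ne.symm hne)
    set Q : V → Prop := fun y => Tendsto (fun n => pn G (2 * n) y o) atTop (𝓝 l) with hQ
    have hQo : Q o := hlim
    have hQstep : ∀ y w z, Q y → G.Adj y w → G.Adj w z → Q z := by
      intro y w z hy h1 h2
      have hp : 0 < pn G 2 y z := by
        have q0 : 0 < pn G 0 z z := by rw [pn_zero_self]; norm_num
        exact pn_pos hd0 hd hnn h1 (pn_pos hd0 hd hnn h2 q0)
      have h3 : Tendsto (fun n => (a n - pn G (2 * (n + 1)) y o) / pn G 2 y z) atTop (𝓝 0) := by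
        have h4 : Tendsto (fun n => pn G (2 * (n + 1)) y o) atTop (𝓝 l) := hy.comp (tendsto_add_atTop_nat 1)
        have h5 := (hlim.sub h4).div_const (pn G 2 y z)
        simpa using h5
      have h6 : Tendsto (fun n => a n - pn G (2 * n) z o) atTop (𝓝 0) := by
        refine squeeze_zero (fun n => sub_nonneg.2 (hle n z o)) (fun n => ?_) h3
        rw [le_div_iff₀ hp, mul_comm]
        exact le_hasSum (hstep n y) z fun j _ => mul_nonneg (hnn 2 y j) (sub_nonneg.2 (hle n j o))
      have h7 := hlim.sub h6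
      simpa using h7
    have hQwalk : ∀ n (y z : V) (p : G.Walk y z), p.length = 2 * n → Q y → Q z := by
      intro n
      induction n with
      | zero =>
        intro y z p hp hy
        have := SimpleGraph.Walk.eq_of_length_eq_zero hp
        rwa [← this]
      | succ n ih =>
        intro y z p hp hy
        cases p with
        | nil => simp at hp
        | cons h1 p1 =>
          cases p1 with
          | nil =>
            simp only [SimpleGraph.Walk.length_cons, SimpleGraph.Walk.length_nil] at hp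
            omega
          | cons h2 p2 =>
            simp only [SimpleGraph.Walk.length_cons] at hp
            exact ih _ _ p2 (by omega) (hQstep _ _ _ hy h1 h2)
    have hex : ∀ n : ℕ, ∃ y, G.dist o y = 2 * n ∧ Q y := by
      intro n
      obtain ⟨y, hy⟩ := (hball o (2 * n)).1
      obtain ⟨p, hp⟩ := hc.exists_walk_length_eq_dist o y
      exact ⟨y, hy, hQwalk n o y p (by rw [hp, hy]) hQo⟩
    choose f hf1 hf2 using hex
    have hinj : Function.Injective f := by
      intro m n h
      have h1 := hf1 m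
      rw [h, hf1 n] at h1
      omega
    obtain ⟨N, hN⟩ := exists_nat_gt (1 / l)
    have h1 : ∀ n, ∑ i ∈ range N, pn G (2 * n) (f i) o ≤ 1 := by
      intro n
      have h2 := hone (2 * n) o
      have h3 : ∑ i ∈ range N, pn G (2 * n) (f i) o = ∑ y ∈ (range N).map ⟨f, hinj⟩, pn G (2 * n) o y := by
        rw [Finset.sum_map]
        exact Finset.sum_congr rfl fun i _ => hsym _ _ _
      rw [h3]
      exact sum_le_hasSum _ (fun y _ => hnn _ _ _) h2
    have h2 : Tendsto (fun n => ∑ i ∈ range N, pn G (2 * n) (f i) o) atTop (𝓝 (∑ _i ∈ range N, l)) :=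
      tendsto_finsetSum _ fun i _ => hf2 i
    have h3 := le_of_tendsto' h2 h1
    rw [Finset.sum_const, card_range, nsmul_eq_mul] at h3
    rw [div_lt_iff₀ hlpos] at hN
    linarith
  rw [hzero] at hlim
  obtain ⟨n0, h0⟩ := eventually_atTop.1 (hlim.eventually (ge_mem_nhds hε))
  exact ⟨n0, fun n hn x y => (hle n x y).trans (h0 n hn)⟩

end Pool.Agent.H967
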