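import Pool.Agent.H867.FT.Stm

/-!
# The combinatorial theorem for cones which are not Q-Gorenstein (by helper967 for helper867)
-/

set_option autoImplicit false

namespace Pool.Agent.H967.FT867

open Pool.Agent.H867.FT

theorem clear {ι : Type} [Fintype ι] (m : ι → ℚ) :
    ∃ (D : ℕ) (M : ι → ℤ), 1 ≤ D ∧ ∀ j, (M j : ℚ) = D * m j := by
  classical
  have h : ∀ j, ∃ e : ℕ, (∏ i, (m i).den) = (m j).den * e := fun j =>
    Finset.dvd_prod_of_mem _ (Finset.mem_univ j)
  choose e he using h
  refine ⟨∏ i, (m i).den, fun j => (m j).num * e j, Finset.prod_pos fun i _ => (m i).pos,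
    fun j => ?_⟩
  rw [he j]
  push_cast
  have h1 := Rat.mul_den_eq_num (m j)
  rw [← h1]
  ring

/-- the rational vector of an integral one -/
def Q {d : ℕ} (x : Fin d → ℤ) : Fin d → ℚ := fun j => (x j : ℚ)

theorem cast_dot {d : ℕ} (x u : Fin d → ℤ) : ((x ⬝ᵥ u : ℤ) : ℚ) = Q x ⬝ᵥ Q u := by
  unfold dotProduct Q
  push_cast
  rfl

theorem int_fun {d : ℕ} (f : (Fin d → ℚ) →ₗ[ℚ] ℚ) :
    ∃ (D : ℕ) (M : Fin d → ℤ), 1 ≤ D ∧ ∀ x : Fin d → ℤ, ((x ⬝ᵥ M : ℤ) : ℚ) = D * f (Q x) := by
  obtain ⟨D, M, hD, hM⟩ := clear fun i : Fin d => f (fun j => if i = j then 1 else 0)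
  refine ⟨D, M, hD, fun x => ?_⟩
  rw [LinearMap.pi_apply_eq_sum_univ f (Q x), cast_dot, Finset.mul_sum]
  unfold dotProduct
  refine Finset.sum_congr rfl fun i _ => ?_
  have h1 : Q M i = D * f (fun j => if i = j then 1 else 0) := hM i
  rw [h1, smul_eq_mul]
  ring

theorem fun_zero {d : ℕ} (f : (Fin d → ℚ) →ₗ[ℚ] ℚ) (h : ∀ x : Fin d → ℤ, f (Q x) = 0) :
    f = 0 := by
  apply LinearMap.ext
  intro x
  rw [LinearMap.pi_apply_eq_sum_univ f x, LinearMap.zero_apply]
  refine Finset.sum_eq_zero fun i _ => ?_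
  have h1 : (fun j : Fin d => if i = j then (1 : ℚ) else 0) =
      Q (fun j : Fin d => if i = j then (1 : ℤ) else 0) := by
    funext j
    show (if i = j then (1 : ℚ) else 0) = ((if i = j then (1 : ℤ) else 0 : ℤ) : ℚ)
    by_cases hij : i = j
    · rw [if_pos hij, if_pos hij, Int.cast_one]
    · rw [if_neg hij, if_neg hij, Int.cast_zero]
  rw [h1, h, smul_zero]

theorem span_top {d n : ℕ} (C : Cone d n) :
    Submodule.span ℚ (Set.range fun i => Q (C.v i)) = ⊤ := by
  by_contra hne
  obtain ⟨f, hf, hle⟩ := Submodule.exists_le_ker_of_lt_top _ (lt_top_iff_ne_top.2 hne)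
  obtain ⟨D, M, hD, hM⟩ := int_fun f
  have hD' : (D : ℚ) ≠ 0 := by
    have : D ≠ 0 := by omega
    exact_mod_cast this
  have h1 : M = 0 := by
    apply C.spans
    intro i
    have h2 : f (Q (C.v i)) = 0 := hle (Submodule.subset_span ⟨i, rfl⟩)
    have h3 := hM (C.v i)
    rw [h2, mul_zero] at h3
    exact_mod_cast h3
  apply hf
  apply fun_zero
  intro x
  have h3 := hM x
  rw [h1, dotProduct_zero, Int.cast_zero] at h3
  rcases mul_eq_zero.1 h3.symm with h4 | h4
  · exact absurd h4 hD'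
  · exact h4

section core

variable {d n : ℕ} (C : Cone d n)

theorem ysum {κ : Type} [Fintype κ] (a : κ → Fin n) (i : Fin n) (t : ℚ) (s : κ → ℚ)
    (g : Fin n → ℚ) :
    ∑ j, ((if j = i then t else 0) + ∑ b, if j = a b then s b else 0) * g j =
      t * g i + ∑ b, s b * g (a b) := by
  simp only [add_mul, Finset.sum_add_distrib, ite_mul, zero_mul, Finset.sum_ite_eq',
    Finset.mem_univ, if_true, Finset.sum_mul]
  rw [Finset.sum_comm]
  simp only [Finset.sum_ite_eq', Finset.mem_univ, if_true]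

theorem core {κ : Type} [Fintype κ] (a : κ → Fin n) (i : Fin n)
    (hspan : ∀ u : Fin d → ℤ, (∀ b, C.v (a b) ⬝ᵥ u = 0) → u = 0)
    (t : ℚ) (s : κ → ℚ) (ht : 0 ≤ t) (hs : ∀ b, 0 ≤ s b) (hle : t + ∑ b, s b ≤ (d : ℚ) - 3 / 2)
    (w : Fin d → ℤ) (hw : ∀ j, (w j : ℚ) = t * C.v i j + ∑ b, s b * C.v (a b) j)
    (hint : ∀ u : Fin d → ℤ, u ∈ C.S → (0 < t → C.v i ⬝ᵥ u = 0) →
      (∀ b, 0 < s b → C.v (a b) ⬝ᵥ u = 0) → ∀ b, C.v (a b) ⬝ᵥ u = 0) :
    ∃ (w : Fin d → ℤ) (y : Fin n → ℚ), (∀ i, 0 ≤ y i) ∧ (∑ i, y i ≤ (d : ℚ) - 3 / 2) ∧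
      (∀ j, (w j : ℚ) = ∑ i, y i * (C.v i j : ℚ)) ∧
      ∀ u : Fin d → ℤ, u ∈ C.S → u ≠ 0 → 1 ≤ w ⬝ᵥ u := by
  refine ⟨w, fun j => (if j = i then t else 0) + ∑ b, if j = a b then s b else 0, ?_, ?_, ?_, ?_⟩
  · intro j
    apply add_nonneg
    · split_ifs
      · exact ht
      · exact le_rfl
    · refine Finset.sum_nonneg fun b _ => ?_
      split_ifs
      · exact hs b
      · exact le_rfl
  · have h1 := ysum a i t s fun _ => 1
    simp only [mul_one] at h1
    rw [h1]
    exact hle
  · intro j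
    rw [ysum a i t s fun i => (C.v i j : ℚ), hw j]
  · intro u hu hne
    have hu' : ∀ j, (0 : ℚ) ≤ ((C.v j ⬝ᵥ u : ℤ) : ℚ) := fun j => by exact_mod_cast hu j
    have h1 : ((w ⬝ᵥ u : ℤ) : ℚ) = t * ((C.v i ⬝ᵥ u : ℤ) : ℚ) +
        ∑ b, s b * ((C.v (a b) ⬝ᵥ u : ℤ) : ℚ) := by
      unfold dotProduct
      push_cast
      simp only [hw, add_mul, Finset.sum_add_distrib, Finset.mul_sum, Finset.sum_mul]
      congr 1
      · exact Finset.sum_congr rfl fun j _ => by ring
      · rw [Finset.sum_comm]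
        exact Finset.sum_congr rfl fun b _ => Finset.sum_congr rfl fun j _ => by ring
    have h2 : 0 ≤ t * ((C.v i ⬝ᵥ u : ℤ) : ℚ) := mul_nonneg ht (hu' i)
    have h3 : ∀ b, 0 ≤ s b * ((C.v (a b) ⬝ᵥ u : ℤ) : ℚ) := fun b => mul_nonneg (hs b) (hu' _)
    have h4 : 0 ≤ ∑ b, s b * ((C.v (a b) ⬝ᵥ u : ℤ) : ℚ) := Finset.sum_nonneg fun b _ => h3 b
    by_contra hlt
    have h5 : ((w ⬝ᵥ u : ℤ) : ℚ) ≤ 0 := by
      have : w ⬝ᵥ u ≤ 0 := by omega
      exact_mod_cast this
    have h6 : t * ((C.v i ⬝ᵥ u : ℤ) : ℚ) = 0 := by linarith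
    have h7 : ∑ b, s b * ((C.v (a b) ⬝ᵥ u : ℤ) : ℚ) = 0 := by linarith
    have h8 := (Finset.sum_eq_zero_iff_of_nonneg fun b _ => h3 b).1 h7
    apply hne
    apply hspan
    apply hint u hu
    · intro htp
      rcases mul_eq_zero.1 h6 with h9 | h9
      · exact absurd h9 htp.ne'
      · exact_mod_cast h9
    · intro b hb
      rcases mul_eq_zero.1 (h8 b (Finset.mem_univ b)) with h9 | h9
      · exact absurd h9 hb.ne'
      · exact_mod_cast h9

end core

/-- a sum of nonnegative numbers minus some ones -/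
theorem sum_bound {κ : Type} [Fintype κ] [DecidableEq κ] (s : κ → ℚ) (hs : ∀ b, s b ≤ 1)
    (T : Finset κ) (hT : ∀ b ∈ T, s b = 0) : ∑ b, s b ≤ (Fintype.card κ : ℚ) - T.card := by
  have h1 : (∑ b ∈ T, (1 - s b)) ≤ ∑ b, (1 - s b) :=
    Finset.sum_le_univ_sum_of_nonneg fun b => sub_nonneg.2 (hs b)
  have h2 : (∑ b ∈ T, (1 - s b)) = T.card := by
    rw [Finset.sum_congr rfl (fun b hb => by rw [hT b hb, sub_zero] :
      ∀ b ∈ T, (1 - s b) = (1 : ℚ)), Finset.sum_const, nsmul_eq_mul, mul_one]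
  rw [h2, Finset.sum_sub_distrib, Finset.sum_const, nsmul_eq_mul, mul_one,
    Finset.card_univ] at h1
  linarith

theorem cmb (h : Pool.Agent.H867.FT.S_CIR) : Pool.Agent.H867.FT.S_CMB := by
  intro d n C hC
  classical
  obtain ⟨κ, a, hinj, hsp, hli⟩ := exists_linearIndependent' ℚ (fun i => Q (C.v i))
  have hfin : Finite κ := Finite.of_injective a hinj
  let _ : Fintype κ := Fintype.ofFinite κ
  rw [span_top] at hsp
  let β : Module.Basis κ ℚ (Fin d → ℚ) := Module.Basis.mk hli hsp.ge
  have hβ : ∀ b, β b = Q (C.v (a b)) := fun b => Module.Basis.mk_apply hli hsp.ge b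
  have hcard : Fintype.card κ = d := by
    rw [← Module.finrank_eq_card_basis β, Module.finrank_fin_fun]
  -- a ray with sum of coefficients different from one
  obtain ⟨i, hi⟩ : ∃ i, ∑ b, β.repr (Q (C.v i)) b ≠ 1 := by
    by_contra hcon
    push Not at hcon
    obtain ⟨D, M, hD, hM⟩ := int_fun (β.constr ℚ fun _ => (1 : ℚ))
    obtain ⟨i, hi⟩ := hC D M hD
    apply hi
    have h1 := hM (C.v i)
    rw [Module.Basis.constr_apply_fintype] at h1
    simp only [smul_eq_mul, mul_one, Module.Basis.equivFun_apply] at h1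
    rw [hcon i, mul_one] at h1
    exact_mod_cast h1
  obtain ⟨c, hc⟩ : ∃ c : κ → ℚ, c = fun b => β.repr (Q (C.v i)) b := ⟨_, rfl⟩
  have hsum : ∑ b, c b ≠ 1 := by
    rw [hc]
    exact hi
  have hrel : ∀ j, (C.v i j : ℚ) = ∑ b, c b * C.v (a b) j := by
    intro j
    have h1 := congrFun (β.sum_repr (Q (C.v i))) j
    rw [Finset.sum_apply] at h1
    have h2 : Q (C.v i) j = (C.v i j : ℚ) := rfl
    rw [← h2, ← h1, hc]
    refine Finset.sum_congr rfl fun b _ => ?_
    rw [Pi.smul_apply, smul_eq_mul, hβ]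
    rfl
  have hrelu : ∀ u : Fin d → ℤ, ((C.v i ⬝ᵥ u : ℤ) : ℚ) =
      ∑ b, c b * ((C.v (a b) ⬝ᵥ u : ℤ) : ℚ) := by
    intro u
    unfold dotProduct
    push_cast
    simp only [hrel, Finset.mul_sum, Finset.sum_mul]
    rw [Finset.sum_comm]
    exact Finset.sum_congr rfl fun b _ => Finset.sum_congr rfl fun j _ => by ring
  have hia : ∀ b, i ≠ a b := by
    intro b hb
    apply hsum
    rw [hc, hb, ← hβ b, β.repr_self b]
    simp only [Finsupp.single_apply, Finset.sum_ite_eq, Finset.mem_univ, if_true]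
  have hind : ∀ g : κ → ℚ, (∀ j, ∑ b, g b * C.v (a b) j = 0) → ∀ b, g b = 0 := by
    intro g hg
    apply Fintype.linearIndependent_iff.1 hli g
    funext j
    rw [Finset.sum_apply]
    exact hg j
  have hspan : ∀ u : Fin d → ℤ, (∀ b, C.v (a b) ⬝ᵥ u = 0) → u = 0 := by
    intro u hu
    apply C.spans
    intro l
    have h1 : Q (C.v l) ⬝ᵥ Q u = 0 := by
      have h2 : Q (C.v l) = ∑ b, β.repr (Q (C.v l)) b • β b := (β.sum_repr _).symm
      rw [h2, sum_dotProduct]
      refine Finset.sum_eq_zero fun b _ => ?_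
      rw [smul_dotProduct, hβ, ← cast_dot, hu b, Int.cast_zero, smul_zero]
    rw [← cast_dot] at h1
    exact_mod_cast h1
  clear_value β
  -- negative coefficients
  obtain ⟨q, hq⟩ : ∃ q, c q < 0 := by
    by_contra hcon
    push Not at hcon
    obtain ⟨u, hu0, hu⟩ := C.facet i
    have h1 := hrelu u
    rw [hu0, Int.cast_zero] at h1
    have hpos : ∀ b, (0 : ℚ) < ((C.v (a b) ⬝ᵥ u : ℤ) : ℚ) := fun b => by
      exact_mod_cast hu (a b) (hia b).symm
    have h2 := (Finset.sum_eq_zero_iff_of_nonneg fun b _ =>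
      mul_nonneg (hcon b) (hpos b).le).1 h1.symm
    have h3 : ∀ b, c b = 0 := by
      intro b
      rcases mul_eq_zero.1 (h2 b (Finset.mem_univ b)) with h4 | h4
      · exact h4
      · exact absurd h4 (hpos b).ne'
    have h4 : C.v i = (2 : ℤ) • (0 : Fin d → ℤ) := by
      rw [smul_zero]
      funext j
      have h5 := hrel j
      rw [Finset.sum_eq_zero fun b _ => by rw [h3 b, zero_mul]] at h5
      exact_mod_cast h5
    have h5 := C.primitive i 2 0 h4
    rw [Int.isUnit_iff] at h5
    omega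
  -- at least two positive coefficients
  have hP2 : ∀ b, ∃ b', b' ≠ b ∧ 0 < c b' := by
    intro b
    by_contra hcon
    push Not at hcon
    obtain ⟨u, hu0, hu⟩ := C.facet (a b)
    have h1 := hrelu u
    have hpos : (0 : ℚ) < ((C.v i ⬝ᵥ u : ℤ) : ℚ) := by
      exact_mod_cast hu i (hia b)
    rw [h1] at hpos
    have hle : ∑ b', c b' * ((C.v (a b') ⬝ᵥ u : ℤ) : ℚ) ≤ 0 := by
      refine Finset.sum_nonpos fun b' _ => ?_
      by_cases hb : b' = b
      · rw [hb, hu0, Int.cast_zero, mul_zero]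
      · have h2 : (0 : ℚ) < ((C.v (a b') ⬝ᵥ u : ℤ) : ℚ) := by
          exact_mod_cast hu (a b') (fun h => hb (hinj h))
        exact mul_nonpos_of_nonpos_of_nonneg (hcon b' hb) h2.le
    linarith
  obtain ⟨p1, hp1q, hp1⟩ := hP2 q
  obtain ⟨p2, hp21, hp2⟩ := hP2 p1
  have hp2q : p2 ≠ q := by
    rintro rfl
    linarith
  by_cases hB : ∃ p3, p3 ≠ p1 ∧ p3 ≠ p2 ∧ 0 < c p3
  · -- three positive coefficients
    obtain ⟨p3, hp31, hp32, hp3⟩ := hB
    let s : κ → ℚ := fun b => if c b ≤ 0 then 1 else 0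
    have hs : ∀ b, s b = if c b ≤ 0 then 1 else 0 := fun b => rfl
    refine core C a i hspan 1 s zero_le_one (fun b => ?_) ?_
      (fun j => C.v i j + ∑ b, if c b ≤ 0 then C.v (a b) j else 0) (fun j => ?_) ?_
    · rw [hs]
      split_ifs
      · exact zero_le_one
      · exact le_rfl
    · have h1 := sum_bound s (fun b => by rw [hs]; split_ifs <;> norm_num) {p1, p2, p3}
        (fun b hb => by
          simp only [Finset.mem_insert, Finset.mem_singleton] at hb
          rw [hs]
          rcases hb with rfl | rfl | rfl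
          · exact if_neg (not_le.2 hp1)
          · exact if_neg (not_le.2 hp2)
          · exact if_neg (not_le.2 hp3))
      have h2 : ({p1, p2, p3} : Finset κ).card = 3 := by
        rw [Finset.card_eq_three]
        exact ⟨p1, p2, p3, hp21.symm, hp31.symm, hp32.symm, rfl⟩
      rw [h2, hcard] at h1
      push_cast at h1
      linarith
    · push_cast
      rw [one_mul]
      congr 1
      refine Finset.sum_congr rfl fun b _ => ?_
      rw [hs]
      split_ifs
      · rw [one_mul]
      · rw [zero_mul]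
    · intro u hu h1 h2 b
      have h3 := hrelu u
      rw [h1 zero_lt_one, Int.cast_zero] at h3
      have h4 : ∀ b, 0 ≤ c b * ((C.v (a b) ⬝ᵥ u : ℤ) : ℚ) := by
        intro b
        by_cases hb : c b ≤ 0
        · rw [h2 b (by rw [hs, if_pos hb]; exact zero_lt_one), Int.cast_zero, mul_zero]
        · exact mul_nonneg (not_le.1 hb).le (by exact_mod_cast hu (a b))
      have h5 := (Finset.sum_eq_zero_iff_of_nonneg fun b _ => h4 b).1 h3.symm
      by_cases hb : c b ≤ 0
      · exact h2 b (by rw [hs, if_pos hb]; exact zero_lt_one)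
      · rcases mul_eq_zero.1 (h5 b (Finset.mem_univ b)) with h6 | h6
        · exact absurd h6.le hb
        · exact_mod_cast h6
  by_cases hA : ∃ q2, q2 ≠ q ∧ c q2 < 0
  · -- two negative coefficients
    obtain ⟨q2, hq2q, hq2⟩ := hA
    let s : κ → ℚ := fun b => if 0 ≤ c b then 1 else 0
    have hs : ∀ b, s b = if 0 ≤ c b then 1 else 0 := fun b => rfl
    refine core C a i hspan 0 s le_rfl (fun b => ?_) ?_
      (fun j => ∑ b, if 0 ≤ c b then C.v (a b) j else 0) (fun j => ?_) ?_
    · rw [hs]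
      split_ifs
      · exact zero_le_one
      · exact le_rfl
    · have h1 := sum_bound s (fun b => by rw [hs]; split_ifs <;> norm_num) {q, q2}
        (fun b hb => by
          simp only [Finset.mem_insert, Finset.mem_singleton] at hb
          rw [hs]
          rcases hb with rfl | rfl
          · exact if_neg (not_le.2 hq)
          · exact if_neg (not_le.2 hq2))
      have h2 : ({q, q2} : Finset κ).card = 2 := Finset.card_pair hq2q.symm
      rw [h2, hcard] at h1
      push_cast at h1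
      linarith
    · push_cast
      rw [zero_mul, zero_add]
      refine Finset.sum_congr rfl fun b _ => ?_
      rw [hs]
      split_ifs
      · rw [one_mul]
      · rw [zero_mul]
    · intro u hu _ h2 b
      have h3 := hrelu u
      have h4 : ∀ b, c b * ((C.v (a b) ⬝ᵥ u : ℤ) : ℚ) ≤ 0 := by
        intro b
        by_cases hb : 0 ≤ c b
        · rw [h2 b (by rw [hs, if_pos hb]; exact zero_lt_one), Int.cast_zero, mul_zero]
        · exact mul_nonpos_of_nonpos_of_nonneg (not_le.1 hb).le (by exact_mod_cast hu (a b))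
      have h5 : (0 : ℚ) ≤ ((C.v i ⬝ᵥ u : ℤ) : ℚ) := by exact_mod_cast hu i
      have h6 : ∑ b, c b * ((C.v (a b) ⬝ᵥ u : ℤ) : ℚ) ≤ 0 := Finset.sum_nonpos fun b _ => h4 b
      have h7 : ∑ b, c b * ((C.v (a b) ⬝ᵥ u : ℤ) : ℚ) = 0 := by linarith
      have h8 := (Finset.sum_eq_zero_iff_of_nonpos fun b _ => h4 b).1 h7
      by_cases hb : 0 ≤ c b
      · exact h2 b (by rw [hs, if_pos hb]; exact zero_lt_one)
      · rcases mul_eq_zero.1 (h8 b (Finset.mem_univ b)) with h9 | h9
        · exact absurd h9.ge hb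
        · exact_mod_cast h9
  -- the circuit case
  push Not at hA hB
  have hc3 : ∀ b, c b = (if b = q then c q else 0) + (if b = p1 then c p1 else 0) +
      (if b = p2 then c p2 else 0) := by
    intro b
    by_cases h1 : b = q
    · rw [h1, if_pos rfl, if_neg hp1q.symm, if_neg hp2q.symm, add_zero, add_zero]
    · by_cases h2 : b = p1
      · rw [h2, if_neg hp1q, if_pos rfl, if_neg hp21.symm, zero_add, add_zero]
      · by_cases h3 : b = p2
        · rw [h3, if_neg hp2q, if_neg hp21, if_pos rfl, zero_add, zero_add]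
        · rw [if_neg h1, if_neg h2, if_neg h3, add_zero, add_zero]
          exact le_antisymm (hB b h2 h3) (hA b h1)
  have hg3 : ∀ g : κ → ℚ, ∑ b, c b * g b = c q * g q + c p1 * g p1 + c p2 * g p2 := by
    intro g
    rw [Finset.sum_congr rfl fun b _ => by rw [hc3 b]]
    simp only [add_mul, Finset.sum_add_distrib, ite_mul, zero_mul, Finset.sum_ite_eq',
      Finset.mem_univ, if_true]
  obtain ⟨D, M, hD, hM⟩ := clear (fun x : Fin 3 => if x = 0 then - c q else
    if x = 1 then c p1 else c p2)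
  have hM0 : (M 0 : ℚ) = D * - c q := hM 0
  have hM1 : (M 1 : ℚ) = D * c p1 := hM 1
  have hM2 : (M 2 : ℚ) = D * c p2 := hM 2
  have hDq : (0 : ℚ) < D := by exact_mod_cast hD
  have hM0p : 0 < M 0 := by
    have : (0 : ℚ) < M 0 := by rw [hM0]; exact mul_pos hDq (by linarith)
    exact_mod_cast this
  have hM1p : 0 < M 1 := by
    have : (0 : ℚ) < M 1 := by rw [hM1]; exact mul_pos hDq hp1
    exact_mod_cast this
  have hM2p : 0 < M 2 := by
    have : (0 : ℚ) < M 2 := by rw [hM2]; exact mul_pos hDq hp2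
    exact_mod_cast this
  obtain ⟨w', y1, y2, y3, y4, h1, h2, h3, h4, hle, hpos, hw'⟩ :=
    h d (C.v i) (C.v (a q)) (C.v (a p1)) (C.v (a p2)) D (M 0) (M 1) (M 2)
      (by exact_mod_cast hD) hM0p hM1p hM2p
      (by
        funext j
        have h5 := hrel j
        rw [hg3 fun b => (C.v (a b) j : ℚ)] at h5
        have h6 : ((D : ℤ) * C.v i j + M 0 * C.v (a q) j : ℚ) =
            M 1 * C.v (a p1) j + M 2 * C.v (a p2) j := by
          rw [hM0, hM1, hM2, h5]
          push_cast
          ring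
        show (D : ℤ) * C.v i j + M 0 * C.v (a q) j = M 1 * C.v (a p1) j + M 2 * C.v (a p2) j
        exact_mod_cast h6)
      (C.primitive i) (C.primitive (a q)) (C.primitive (a p1)) (C.primitive (a p2))
      (by
        intro x y z hxyz
        have h5 := hind (fun b => x * c b + (if b = p1 then (y : ℚ) else 0) +
          (if b = p2 then (z : ℚ) else 0)) (by
            intro j
            have h6 := congrFun hxyz j
            have h7 : x * C.v i j + y * C.v (a p1) j + z * C.v (a p2) j = 0 := h6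
            have h8 : (x * C.v i j + y * C.v (a p1) j + z * C.v (a p2) j : ℚ) = 0 := by
              exact_mod_cast h7
            rw [hrel j, Finset.mul_sum] at h8
            simp only [add_mul, Finset.sum_add_distrib, ite_mul, zero_mul, Finset.sum_ite_eq',
              Finset.mem_univ, if_true]
            rw [← h8]
            congr 2
            exact Finset.sum_congr rfl fun b _ => by ring)
        have hx : (x : ℚ) = 0 := by
          have h6 := h5 q
          simp only [if_neg hp1q.symm, if_neg hp2q.symm, add_zero] at h6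
          rcases mul_eq_zero.1 h6 with h7 | h7
          · exact h7
          · exact absurd h7 hq.ne
        have hy : (y : ℚ) = 0 := by
          have h6 := h5 p1
          simpa only [if_pos, if_neg hp21.symm, hx, zero_mul, zero_add, add_zero] using h6
        have hz : (z : ℚ) = 0 := by
          have h6 := h5 p2
          simpa only [if_pos, if_neg hp21, hx, zero_mul, zero_add, add_zero] using h6
        exact ⟨by exact_mod_cast hx, by exact_mod_cast hy, by exact_mod_cast hz⟩)
      (by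
        intro h5
        apply hsum
        have h6 : ((D : ℤ) + M 0 : ℚ) = M 1 + M 2 := by exact_mod_cast h5
        rw [hM0, hM1, hM2] at h6
        have h7 := hg3 fun _ => 1
        simp only [mul_one] at h7
        rw [h7]
        have h8 : (D : ℚ) * (c q + c p1 + c p2) = D * 1 := by
          push_cast at h6
          linarith
        exact mul_left_cancel₀ hDq.ne' h8)
  let δ : κ → ℤ := fun b => 1 - (if b = q then 1 else 0) - (if b = p1 then 1 else 0) -
    (if b = p2 then 1 else 0)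
  have hδ : ∀ b, δ b = 1 - (if b = q then 1 else 0) - (if b = p1 then 1 else 0) -
    (if b = p2 then 1 else 0) := fun b => rfl
  let s : κ → ℚ := fun b => (δ b : ℚ) + (if b = q then y2 else 0) + (if b = p1 then y3 else 0) +
    (if b = p2 then y4 else 0)
  have hs : ∀ b, s b = (δ b : ℚ) + (if b = q then y2 else 0) + (if b = p1 then y3 else 0) +
    (if b = p2 then y4 else 0) := fun b => rfl
  have hsq : s q = y2 := by
    rw [hs, hδ, if_pos rfl, if_neg hp1q.symm, if_neg hp2q.symm, if_pos rfl, if_neg hp1q.symm,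
      if_neg hp2q.symm]
    push_cast
    ring
  have hsp1 : s p1 = y3 := by
    rw [hs, hδ, if_neg hp1q, if_pos rfl, if_neg hp21.symm, if_neg hp1q, if_pos rfl,
      if_neg hp21.symm]
    push_cast
    ring
  have hsp2 : s p2 = y4 := by
    rw [hs, hδ, if_neg hp2q, if_neg hp21, if_pos rfl, if_neg hp2q, if_neg hp21, if_pos rfl]
    push_cast
    ring
  have hso : ∀ b, b ≠ q → b ≠ p1 → b ≠ p2 → s b = 1 := by
    intro b h5 h6 h7
    rw [hs, hδ, if_neg h5, if_neg h6, if_neg h7, if_neg h5, if_neg h6, if_neg h7]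
    push_cast
    ring
  refine core C a i hspan y1 s h1 (fun b => ?_) ?_
    (fun j => w' j + ∑ b, δ b * C.v (a b) j) (fun j => ?_) ?_
  · by_cases h5 : b = q
    · rw [h5, hsq]
      exact h2
    · by_cases h6 : b = p1
      · rw [h6, hsp1]
        exact h3
      · by_cases h7 : b = p2
        · rw [h7, hsp2]
          exact h4
        · rw [hso b h5 h6 h7]
          exact zero_le_one
  · have h5 : ∑ b, s b = (d : ℚ) - 3 + y2 + y3 + y4 := by
      simp only [hs, hδ]
      push_cast
      simp only [Finset.sum_add_distrib, Finset.sum_sub_distrib, Finset.sum_ite_eq',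
        Finset.mem_univ, if_true, Finset.sum_const, nsmul_eq_mul, mul_one, Finset.card_univ, hcard]
      ring
    rw [h5]
    linarith
  · push_cast
    rw [hw' j]
    simp only [hs, add_mul, Finset.sum_add_distrib, ite_mul, zero_mul, Finset.sum_ite_eq',
      Finset.mem_univ, if_true]
    ring
  · intro u hu h5 h6 b
    have h7 := hrelu u
    rw [hg3 fun b => ((C.v (a b) ⬝ᵥ u : ℤ) : ℚ)] at h7
    have hu' : ∀ j, (0 : ℚ) ≤ ((C.v j ⬝ᵥ u : ℤ) : ℚ) := fun j => by exact_mod_cast hu j
    have hkey : C.v (a q) ⬝ᵥ u = 0 ∧ C.v (a p1) ⬝ᵥ u = 0 ∧ C.v (a p2) ⬝ᵥ u = 0 := by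
      rcases hpos with ⟨hy1, hy2⟩ | ⟨hy3, hy4⟩
      · have h8 := h5 hy1
        have h9 := h6 q (by rw [hsq]; exact hy2)
        rw [h8, h9, Int.cast_zero, mul_zero, zero_add] at h7
        have h10 := mul_nonneg hp1.le (hu' (a p1))
        have h11 := mul_nonneg hp2.le (hu' (a p2))
        have h12 : c p1 * ((C.v (a p1) ⬝ᵥ u : ℤ) : ℚ) = 0 := by linarith
        have h13 : c p2 * ((C.v (a p2) ⬝ᵥ u : ℤ) : ℚ) = 0 := by linarith
        refine ⟨h9, ?_, ?_⟩
        · rcases mul_eq_zero.1 h12 with h14 | h14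
          · exact absurd h14 hp1.ne'
          · exact_mod_cast h14
        · rcases mul_eq_zero.1 h13 with h14 | h14
          · exact absurd h14 hp2.ne'
          · exact_mod_cast h14
      · have h8 := h6 p1 (by rw [hsp1]; exact hy3)
        have h9 := h6 p2 (by rw [hsp2]; exact hy4)
        rw [h8, h9, Int.cast_zero, mul_zero, mul_zero, add_zero, add_zero] at h7
        have h10 := mul_nonpos_of_nonpos_of_nonneg hq.le (hu' (a q))
        have h11 := hu' i
        have h12 : c q * ((C.v (a q) ⬝ᵥ u : ℤ) : ℚ) = 0 := by linarith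
        refine ⟨?_, h8, h9⟩
        rcases mul_eq_zero.1 h12 with h14 | h14
        · exact absurd h14 hq.ne
        · exact_mod_cast h14
    obtain ⟨hk1, hk2, hk3⟩ := hkey
    by_cases h8 : b = q
    · rw [h8]
      exact hk1
    · by_cases h9 : b = p1
      · rw [h9]
        exact hk2
      · by_cases h10 : b = p2
        · rw [h10]
          exact hk3
        · exact h6 b (by rw [hso b h8 h9 h10]; exact zero_lt_one)

end Pool.Agent.H967.FT867
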